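import Pool.Agent.MP_c1891a_nt.H43.Spec4

/-
All dimensions, part A: Tate algebras, the asymptotic field, differential algebra.
-/

namespace Pool.Agent.MP_c1891a_nt.G43

open Finset Filter Module
open scoped NNReal

/-- the nonzero integers have norm one. -/
def UK (K : Type) [NormedField K] : Prop := ∀ m : ℕ, m ≠ 0 → ‖(m : K)‖ = 1

/-- the Gauss norm of a polynomial. -/
noncomputable def gn {K σ : Type} [NormedField K] (p : MvPolynomial σ K) : ℝ≥0 :=
  p.support.sup fun α => ‖p.coeff α‖₊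

/-- the exponential series. -/
noncomputable def ex (K : Type) {A : Type} [NormedField K] [NormedCommRing A] [NormedAlgebra K A]
    (a : A) : A := ∑' k : ℕ, ((k.factorial : K)⁻¹) • a ^ k

section

variable (K : Type) {A : Type} [NormedField K] [NormedCommRing A] [NormedAlgebra K A] {d : ℕ}

/-- `A` is the completion of the polynomial ring in `Y` for the Gauss norm. -/
def IsTate (Y : Fin d → A) : Prop :=
  (∀ p : MvPolynomial (Fin d) K, ‖MvPolynomial.aeval Y p‖₊ = gn p) ∧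
    DenseRange fun p : MvPolynomial (Fin d) K => MvPolynomial.aeval Y p

/-- the closed subalgebra generated by the first `n` variables. -/
noncomputable def TS (Y : Fin d → A) (n : ℕ) : Subalgebra K A :=
  (Algebra.adjoin K (Y '' {i | (i : ℕ) < n})).topologicalClosure

/-- polynomials in all variables over `TS K Y n`. -/
noncomputable def TP (Y : Fin d → A) (n : ℕ) : Subalgebra K A :=
  Algebra.adjoin K ((TS K Y n : Set A) ∪ Set.range Y)

end

/-- a Tate algebra exists. -/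
def STate : Prop :=
  ∀ (K : Type) [NontriviallyNormedField K] [IsUltrametricDist K] (d : ℕ),
    ∃ (A : Type) (_ : NormedCommRing A) (_ : NormedAlgebra K A) (_ : CompleteSpace A)
      (_ : IsUltrametricDist A) (Y : Fin d → A), IsTate K Y

/-- the norm is multiplicative. -/
def STMul : Prop :=
  ∀ (K A : Type) [NontriviallyNormedField K] [IsUltrametricDist K] [NormedCommRing A]
    [NormedAlgebra K A] (d : ℕ) (Y : Fin d → A), IsTate K Y →
    ‖(1 : A)‖ = 1 ∧ ∀ a b : A, ‖a * b‖ = ‖a‖ * ‖b‖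

/-- evaluation at a point of the unit polydisc. -/
def STPt : Prop :=
  ∀ (K A : Type) [NontriviallyNormedField K] [IsUltrametricDist K] [CompleteSpace K]
    [NormedCommRing A] [NormedAlgebra K A] (d : ℕ) (Y : Fin d → A), IsTate K Y →
    ∀ y : Fin d → K, (∀ i, ‖y i‖ ≤ 1) →
      ∃ φ : A →ₐ[K] K, (∀ i, φ (Y i) = y i) ∧ ∀ a, ‖φ a‖ ≤ ‖a‖

/-- the derivatives in the variables. -/
def STDer : Prop :=
  ∀ (K A : Type) [NontriviallyNormedField K] [IsUltrametricDist K] [NormedCommRing A]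
    [NormedAlgebra K A] [CompleteSpace A] (d : ℕ) (Y : Fin d → A), IsTate K Y →
    ∀ i, ∃ D : Derivation K A A, (∀ j, D (Y j) = if j = i then 1 else 0) ∧ ∀ a, ‖D a‖ ≤ ‖a‖

/-- an integer shear makes an element distinguished. -/
def SShear : Prop :=
  ∀ (K A : Type) [NontriviallyNormedField K] [IsUltrametricDist K] [NormedCommRing A]
    [NormedAlgebra K A] [IsUltrametricDist A] (d : ℕ) (Y : Fin d → A), UK K → IsTate K Y →
    ∀ (n : Fin d) (g : A), g ∈ TS K Y (n + 1) → g ≠ 0 →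
      ∃ (a : Fin d → ℤ) (Y' : Fin d → A) (c : K) (w : Polynomial A),
        (∀ i, Y' i = if i < n then Y i - a i • Y n else Y i) ∧ IsTate K Y' ∧
        (∀ m : ℕ, (n : ℕ) < m → TS K Y' m = TS K Y m) ∧ w.Monic ∧
        (∀ k, w.coeff k ∈ TS K Y' n ∧ ‖w.coeff k‖ ≤ 1) ∧ ‖c • g - w.eval (Y' n)‖ < 1

/-- Weierstrass division. -/
def SDivT : Prop :=
  ∀ (K A : Type) [NontriviallyNormedField K] [IsUltrametricDist K] [NormedCommRing A]
    [NormedAlgebra K A] [CompleteSpace A] [IsUltrametricDist A] (d : ℕ) (Y : Fin d → A),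
    IsTate K Y → ∀ (n : Fin d) (g : A) (w : Polynomial A), g ∈ TS K Y (n + 1) → w.Monic →
      (∀ k, w.coeff k ∈ TS K Y n ∧ ‖w.coeff k‖ ≤ 1) → ‖g - w.eval (Y n)‖ < 1 →
      ∀ h ∈ TS K Y (n + 1), ∃ q ∈ TS K Y (n + 1), ∃ r : Fin w.natDegree → A,
        (∀ k, r k ∈ TS K Y n ∧ ‖r k‖ ≤ ‖h‖) ∧ h = q * g + ∑ k, r k * Y n ^ (k : ℕ)

/-- Noether normalisation with control of the norms. -/
def SNorm : Prop :=
  ∀ (K A : Type) [NontriviallyNormedField K] [IsUltrametricDist K] [CompleteSpace K]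
    [NormedCommRing A] [NormedAlgebra K A] [CompleteSpace A] [IsUltrametricDist A] (d : ℕ)
    (Y : Fin d → A), UK K → IsTate K Y → ∀ I : Ideal A, I ≠ ⊤ →
      ∃ (U : Fin d → Fin d → ℤ) (Y' : Fin d → A) (n e : ℕ) (G : Fin e → A),
        (∀ i, Y' i = ∑ j, U i j • Y j) ∧ IsTate K Y' ∧ n ≤ d ∧
        (∀ b ∈ TS K Y' n, b ∈ I → b = 0) ∧ (∀ k, ‖G k‖ ≤ 1) ∧
        (∀ a : A, ∃ b : Fin e → A, (∀ k, b k ∈ TS K Y' n ∧ ‖b k‖ ≤ ‖a‖) ∧
          a - ∑ k, b k * G k ∈ I) ∧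
        ∀ a : A, ∃ p ∈ TP K Y' n, a - p ∈ Ideal.span {w | w ∈ I ∧ w ∈ TP K Y' n}

/-- the exponential series on the open unit ball. -/
def SExp : Prop :=
  ∀ (K A : Type) [NontriviallyNormedField K] [IsUltrametricDist K] [NormedCommRing A]
    [NormedAlgebra K A] [CompleteSpace A] [IsUltrametricDist A], UK K →
    ex K (0 : A) = 1 ∧ ∀ a : A, ‖a‖ < 1 →
      (∀ b : A, ‖b‖ < 1 → ex K (a + b) = ex K a * ex K b) ∧ (∃ b, ex K a = 1 + a * b) ∧
      (∀ D : Derivation K A A, (∀ x, ‖D x‖ ≤ ‖x‖) → D (ex K a) = ex K a * D a) ∧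
      ∀ (A' : Type) [NormedCommRing A'] [NormedAlgebra K A'] (φ : A →ₐ[K] A'),
        (∀ x, ‖φ x‖ ≤ ‖x‖) → φ (ex K a) = ex K (φ a)

/-- extension of derivations in characteristic zero. -/
def SDerExt : Prop :=
  ∀ (K R F : Type) [Field K] [CharZero K] [CommRing R] [Field F] [Algebra K R] [Algebra K F]
    [Algebra R F] [IsScalarTower K R F], Function.Injective (algebraMap R F) →
    ∀ D : Derivation K R F, ∃ D' : Derivation K F F, ∀ r, D' (algebraMap R F r) = D r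

/-- a homomorphism that keeps the transcendence degree is injective. -/
def SInj : Prop :=
  ∀ (K R F : Type) [Field K] [CommRing R] [IsDomain R] [Field F] [Algebra K R] [Algebra K F]
    (ψ : R →ₐ[K] F) (n : ℕ) (z : Fin n → R), AlgebraicIndependent K (fun i => ψ (z i)) →
    (∀ y : Fin (n + 1) → R, ¬ AlgebraicIndependent K y) →
    Function.Injective ψ ∧ ∀ a : R, IsAlgebraic (Algebra.adjoin K (Set.range z)) a

/-- Rosenlicht's lemma on logarithmic differentials. -/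
def SRos : Prop :=
  ∀ (C F ι : Type) [Field C] [CharZero C] [Field F] [Algebra C F] [Fintype ι] (γ : ι → C)
    (y : ι → F) (a : F), LinearIndependent ℚ γ → (∀ k, y k ≠ 0) →
    (∀ δ : Derivation C F F, ∑ k, γ k • (δ (y k) / y k) = δ a) →
    (∀ k, IsAlgebraic C (y k)) ∧ IsAlgebraic C a

open Classical in
/-- exponentials of algebraic functions are linearly independent. -/
def SKO : Prop :=
  ∀ (K F ι : Type) [Field K] [CharZero K] [IsAlgClosed K] [Field F] [Algebra K F] (n : ℕ)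
    (y : Fin n → F) (D : Fin n → Derivation K F F) (I : Finset ι) (a E : ι → F) (c : ι → K),
    (∀ i j, D i (y j) = if j = i then 1 else 0) →
    (∀ i ∈ I, IsAlgebraic (Algebra.adjoin K (Set.range y)) (a i) ∧ E i ≠ 0 ∧
      ∀ l, D l (E i) = E i * D l (a i)) →
    ∑ i ∈ I, c i • E i = 0 →
    ∀ i₀ ∈ I, ∑ i ∈ I with a i - a i₀ ∈ Set.range (algebraMap K F), c i • E i = 0

/-- on `Z` the polynomials are approximated by a finite module over `n` linear forms. -/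
def Low {K : Type} [NormedField K] {d : ℕ} (Z : Set (Fin d → K)) (n e : ℕ) : Prop :=
  ∃ (U : Fin n → Fin d → ℤ) (G : Fin e → (Fin d → K) → K), (∀ k, ∀ y ∈ Z, ‖G k y‖ ≤ 1) ∧
    ∀ p : MvPolynomial (Fin d) K, gn p ≤ 1 → ∀ η : ℝ, 0 < η →
      ∃ b : Fin e → MvPolynomial (Fin n) K, (∀ k, gn (b k) ≤ 1) ∧ ∀ y ∈ Z,
        ‖MvPolynomial.eval y p -
          ∑ k, MvPolynomial.eval (fun i => ∑ l, (U i l : K) * y l) (b k) * G k y‖ ≤ η

open Classical in
/-- the exponential equations cut the dimension. -/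
def SLoc : Prop :=
  ∀ (K : Type) [NontriviallyNormedField K] [IsUltrametricDist K] [CompleteSpace K] [IsAlgClosed K]
    (d k : ℕ) (𝔭 : Ideal (MvPolynomial (Fin d) K)) (σ : Fin k → Fin d) (ι J : Type) (I : Finset ι)
    (c : ι → K) (m : ι → Fin d → ℤ) (κ : ι → J) (r : K) (Z : Set (Fin d → K)) (y₀ : Fin d → K),
    UK K → 𝔭.IsPrime → 0 < k →
    IsTranscendenceBasis K (fun i => Ideal.Quotient.mk 𝔭 (MvPolynomial.X (σ i))) →
    r ≠ 0 → ‖r‖ < 1 →
    (∀ y ∈ Z, (∀ i, ‖y i‖ ≤ 1) ∧ (∀ p ∈ 𝔭, MvPolynomial.eval y p = 0) ∧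
      ∀ j, ∑ i ∈ I with κ i = j, c i * ex K (r * ∑ l, (m i l : K) * y l) = 0) → y₀ ∈ Z →
    (∀ u : Fin d → ℤ, u ≠ 0 → ∃ (j : J) (t : ℤ),
      ∑ i ∈ I with κ i = j ∧ ∑ l, u l * m i l = t,
        c i * ex K (r * ∑ l, (m i l : K) * y₀ l) ≠ 0) →
    ∃ n e, n < k ∧ Low Z n e

/-- the determinant estimate. -/
def SAux : Prop :=
  ∀ (K : Type) [NontriviallyNormedField K] [IsUltrametricDist K] (k n e : ℕ) (s H : ℝ),
    n < k → 0 ≤ s → s < 1 → 1 ≤ H → ∃ D : ℕ, 0 < D ∧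
    ∀ (d : ℕ) (σ : Fin k → Fin d) (Z : Set (Fin d → K)), Low Z n e →
      ∀ y : (Fin k → Fin D) → Fin d → K, (∀ b, y b ∈ Z ∧ ∀ l, ‖y b l‖ ≤ s) →
        ‖(Matrix.of fun a b : Fin k → Fin D => ∏ i, y b (σ i) ^ (a i : ℕ)).det‖ *
          H ^ (k * D * D ^ k) < 1

/-- the field of asymptotic numbers for the scale `N`. -/
structure UF (N : ℕ → ℕ) {K : Type} [NormedField K] (M : Subring (ℕ → ℂ)) (cl : M →+* K) :
    Prop where
  mem : ∀ x, x ∈ M ↔ ∃ C : ℕ, ∀ᶠ n in hyperfilter ℕ, ‖x n‖ ≤ (N n : ℝ) ^ C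
  le : ∀ (x : M) (t : ℝ), (∀ᶠ n in hyperfilter ℕ, ‖x.1 n‖ ≤ (N n : ℝ) ^ t) → ‖cl x‖ ≤ Real.exp t
  lt : ∀ (x : M) (t : ℝ), ‖cl x‖ < Real.exp t → ∀ᶠ n in hyperfilter ℕ, ‖x.1 n‖ ≤ (N n : ℝ) ^ t
  surj : Function.Surjective cl

/-- the construction of the field. -/
def SUF : Prop :=
  ∀ N : ℕ → ℕ, Tendsto N atTop atTop →
    ∃ (K : Type) (_ : NontriviallyNormedField K) (_ : IsUltrametricDist K)
      (M : Subring (ℕ → ℂ)) (cl : M →+* K), UF N M cl

/-- the properties of the field. -/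
def SUF2 : Prop :=
  ∀ (N : ℕ → ℕ) (K : Type) [NontriviallyNormedField K] [IsUltrametricDist K]
    (M : Subring (ℕ → ℂ)) (cl : M →+* K), Tendsto N atTop atTop → UF N M cl →
    CompleteSpace K ∧ IsAlgClosed K ∧ UK K ∧
      ∀ x y : M, ‖cl x‖ < 1 → (∀ n, y.1 n = Complex.exp (x.1 n)) → cl y = ex K (cl x)

/-- the points of `K ^ d` that come from a sequence of finite sets. -/
def IP {K : Type} [NormedField K] {M : Subring (ℕ → ℂ)} (cl : M →+* K) {d : ℕ}
    (S : ℕ → Finset (Fin d → ℂ)) : Set (Fin d → K) :=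
  {y | ∃ θ : Fin d → M, (∀ᶠ n in hyperfilter ℕ, (fun l => (θ l).1 n) ∈ S n) ∧ ∀ l, cl (θ l) = y l}

/-- a sequence of finite sets of polynomial size. -/
def Large (N : ℕ → ℕ) {α : Type} (S : ℕ → Finset α) : Prop :=
  ∃ ε : ℝ, 0 < ε ∧ ∀ᶠ n in hyperfilter ℕ, (N n : ℝ) ^ ε ≤ (S n).card

/-- the large subfamilies satisfy the same polynomial equations. -/
def Stab (N : ℕ → ℕ) {K : Type} [NormedField K] {M : Subring (ℕ → ℂ)} (cl : M →+* K) {d : ℕ}
    (S : ℕ → Finset (Fin d → ℂ)) : Prop :=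
  ∀ S' : ℕ → Finset (Fin d → ℂ), (∀ n, S' n ⊆ S n) → Large N S' →
    ∀ p : MvPolynomial (Fin d) K, (∀ y ∈ IP cl S', MvPolynomial.eval y p = 0) →
      ∀ y ∈ IP cl S, MvPolynomial.eval y p = 0

/-- stable families exist, their ideal is prime, and vanishing determinants give an equation. -/
def SStab : Prop :=
  ∀ (N : ℕ → ℕ) (K : Type) [NontriviallyNormedField K] [IsUltrametricDist K]
    (M : Subring (ℕ → ℂ)) (cl : M →+* K) (d : ℕ) (S : ℕ → Finset (Fin d → ℂ)),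
    Tendsto N atTop atTop → UF N M cl → Large N S →
    (∀ n, ∀ θ ∈ S n, ∀ l, ‖θ l‖ ≤ N n) →
    (∃ S' : ℕ → Finset (Fin d → ℂ), (∀ n, S' n ⊆ S n) ∧ Large N S' ∧ Stab N cl S') ∧
    (Stab N cl S → (MvPolynomial.vanishingIdeal K (IP cl S)).IsPrime) ∧
    ∀ (ι : Type) [Fintype ι] [DecidableEq ι] (a : ι → Fin d →₀ ℕ), Function.Injective a →
      (∀ θ : ι → Fin d → M, (∀ b, ∀ᶠ n in hyperfilter ℕ, (fun l => (θ b l).1 n) ∈ S n) →
        ∀ᶠ n in hyperfilter ℕ,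
          (Matrix.of fun i b : ι => ∏ l, (θ b l).1 n ^ a i l).det = 0) →
      ∃ q : ι → K, q ≠ 0 ∧ ∀ y ∈ IP cl S, ∑ i, q i * ∏ l, y l ^ a i l = 0

end Pool.Agent.MP_c1891a_nt.G43
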