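import Pool.Agent.MP_c1891a_nt.G43.Core
import Pool.Agent.MP_c1891a_nt.G6.Exp
import Pool.Agent.MP_c1891a_nt.G12.Ax
import Pool.Agent.MP_c1891a_nt.G14.OneN
import Pool.Agent.MP_c1891a_nt.G16.Chain
import Pool.Agent.MP_c1891a_nt.G19.NormN
import Pool.Agent.MP_c1891a_nt.G22.KO
import Pool.Agent.MP_c1891a_nt.G28.DivT
import Pool.Agent.MP_c1891a_nt.G36.Abs
import Pool.Agent.MP_c1891a_nt.G44.Mann
import Pool.Agent.MP_c1891a_nt.G45.Norm
import Pool.Agent.MP_c1891a_nt.G50.Sat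
import Pool.Agent.MP_c1891a_nt.G52.TMul
import Pool.Agent.MP_c1891a_nt.G52.Mass
import Pool.Agent.MP_c1891a_nt.G55.PigN
import Pool.Agent.MP_c1891a_nt.G55.Excl
import Pool.Agent.MP_c1891a_nt.G56.PairN
import Pool.Agent.MP_c1891a_nt.G56.TPt
import Pool.Agent.MP_c1891a_nt.G58.Loc
import Pool.Agent.MP_c1891a_nt.G60.UF2
import Pool.Agent.MP_c1891a_nt.G61.Frob2
import Pool.Agent.MP_c1891a_nt.G65.Stab
import Pool.Agent.MP_c1891a_nt.G70.UF
import Pool.Agent.MP_c1891a_nt.G71.NearN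
import Pool.Agent.MP_c1891a_nt.G73.Rel
import Pool.Agent.MP_c1891a_nt.G75.SylN
import Pool.Agent.MP_c1891a_nt.G78.AuxD
import Pool.Agent.MP_c1891a_nt.G80.PairT
import Pool.Agent.MP_c1891a_nt.G83.Ros
import Pool.Agent.MP_c1891a_nt.G86.PosN
import Pool.Agent.MP_c1891a_nt.G88.DefN
import Pool.Agent.MP_c1891a_nt.G90.Tate
import Pool.Agent.MP_c1891a_nt.G94.DerExt
import Pool.Agent.MP_c1891a_nt.G96.Shear
import Pool.Agent.MP_c1891a_nt.G97.AnomN
import Pool.Agent.MP_c1891a_nt.G99.Str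
import Pool.Agent.MP_c1891a_nt.H44.Gal
import Pool.Agent.MP_c1891a_nt.H53.NormP
import Pool.Agent.MP_c1891a_nt.H73.Rep

/-
All dimensions: the analytic core without hypotheses.
-/

namespace Pool.Agent.MP_c1891a_nt.G43

open H43

theorem allRos : SRos := sRos sDerExt

theorem allAbs : SAbs :=
  sAbs sUF sUF2 sStab (sLoc sTate sTMul sTPt sTDer (sNorm sShear sDivT sTMul) sExp sDerExt sInj
    (sKO allRos)) sAux

theorem allAnomN : SAnomN :=
  sAnomN sPigN sRep2N sNearN sTwoN (sOneN sNearN) sSylN sRepC (sFF sDerExt)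

theorem allStr : SStr := sStr (sFF sDerExt) allRos (sAx allRos) sMann

theorem allExcl : SExcl := sExcl allAnomN allStr (sNz sMann) sSat (sExt sSat)

theorem allPairN : SPairN := sPairN allAnomN allStr (sNz sMann) sSat allExcl (sPairT sSat)

theorem allMass : SMass := sMass (sRel allAbs sSat) allExcl sSat (sExt sSat)

theorem allCore : SCore :=
  sCore sPigN sRepC sRep1 (sPosN (sChain sSat (sExt sSat)) sFrob2 sMann) sDefN allMass (sNz sMann)
    (sEmb sGal) sNormP sNormN allPairN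

end Pool.Agent.MP_c1891a_nt.G43
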