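import Pool.Agent.MP_c1891a_nt.G43.Spec

/-! Basic facts on systems. -/

namespace Pool.Agent.MP_c1891a_nt.G43

open Finset Module H43

variable {Λ : Type} [AddCommGroup Λ]

theorem char_ne {F : Type} [Field F] (x : AddChar Λ F) (l : Λ) : x l ≠ 0 := fun h => by
  have := x.map_add_eq_mul l (-l)
  rw [add_neg_cancel, x.map_zero_eq_one, h, zero_mul] at this
  exact one_ne_zero this

theorem char_sub {F : Type} [Field F] (x : AddChar Λ F) (a b : Λ) : x (a - b) * x b = x a := by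
  rw [← x.map_add_eq_mul, sub_add_cancel]

theorem char_pow_one {F : Type} [Field F] {x : AddChar Λ F} {N : ℕ} (h : x ^ N = 1) (l : Λ) :
    x l ^ N = 1 := by rw [← AddChar.pow_apply, h, AddChar.one_apply]

theorem char_tor {χ : AddChar Λ ℂ} (h : IsOfFinOrder χ) (l : Λ) : Tor (χ l) :=
  ⟨_, h.orderOf_pos, char_pow_one (pow_orderOf_eq_one χ) l⟩

theorem char_norm {χ : AddChar Λ ℂ} (h : IsOfFinOrder χ) (l : Λ) : ‖χ l‖ = 1 :=
  Complex.norm_eq_one_of_pow_eq_one (char_pow_one (pow_orderOf_eq_one χ) l) h.orderOf_pos.ne'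

theorem fin_of_pow {χ : AddChar Λ ℂ} {N : ℕ} (hN : 0 < N) (h : χ ^ N = 1) : IsOfFinOrder χ :=
  isOfFinOrder_iff_pow_eq_one.2 ⟨N, hN, h⟩

@[simp] theorem rs_apply {F : Type} [Field F] (W : Submodule ℤ Λ) (x : AddChar Λ F) (l : W) :
    rs W x l = x l := rfl

theorem rs_pow {F : Type} [Field F] (W : Submodule ℤ Λ) (x : AddChar Λ F) (j : ℕ) :
    rs W (x ^ j) = rs W x ^ j := by ext; simp

theorem rs_order (W : Submodule ℤ Λ) (χ : AddChar Λ ℂ) : orderOf (rs W χ) ∣ orderOf χ :=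
  orderOf_dvd_of_pow_eq_one (by rw [← rs_pow, pow_orderOf_eq_one]; ext; simp)

theorem NoRel.mono {T T' : Finset Λ} {χ : AddChar Λ ℂ} (h : NoRel T' χ) (hT : T ⊆ T') :
    NoRel T χ := fun l hl => h l (hT hl)

theorem NoRel.rs {W : Submodule ℤ Λ} {T : Finset W} {T' : Finset Λ} {χ : AddChar Λ ℂ}
    (h : NoRel T' χ) (hT : ∀ l ∈ T, l.1 ∈ T') : NoRel T (rs W χ) :=
  fun l hl h0 => h l (hT l hl) fun e => h0 (Subtype.ext e)

theorem NoRel.pow {T : Finset Λ} {χ : AddChar Λ ℂ} (h : NoRel T χ) {j : ℕ}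
    (hj : Nat.Coprime j (orderOf χ)) : NoRel T (χ ^ j) := fun l hl h0 e => h l hl h0 (by
  rw [AddChar.pow_apply] at e
  have := pow_gcd_eq_one.2 ⟨e, char_pow_one (pow_orderOf_eq_one χ) l⟩
  rwa [hj, pow_one] at this)

/-- a character without the relation `N₀! • l` has order at least `N₀`. -/
theorem NoRel.le_order [Module.Free ℤ Λ] {T : Finset Λ} {χ : AddChar Λ ℂ} (h : NoRel T χ)
    (hχ : IsOfFinOrder χ) {l : Λ} (hl : l ≠ 0) {N₀ : ℕ} (hT : N₀.factorial • l ∈ T) :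
    N₀ ≤ orderOf χ := by
  by_contra c
  refine h _ hT (fun e => hl ?_) ?_
  · rw [← natCast_zsmul] at e
    exact (smul_eq_zero.1 e).resolve_left (by exact_mod_cast N₀.factorial_ne_zero)
  · obtain ⟨k, hk⟩ := Nat.dvd_factorial hχ.orderOf_pos (not_le.1 c).le
    rw [χ.map_nsmul_eq_pow, hk, pow_mul, char_pow_one (pow_orderOf_eq_one χ), one_pow]

theorem sat_ker {X : Type} [AddCommGroup X] [Module.Free ℤ X] (u : Λ →ₗ[ℤ] X) :
    Sat (LinearMap.ker u) := fun k l hk h => by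
  rw [LinearMap.mem_ker, map_smul] at h
  exact (smul_eq_zero.1 h).resolve_left hk

namespace Sys

variable (S : Sys Λ)

theorem ρ_nonneg (χ : AddChar Λ ℂ) : 0 ≤ S.ρ χ := sum_nonneg fun _ _ => norm_nonneg _

open Classical in
theorem cs_eq_zero {F : Type} [Field F] [Algebra ℂ F] (x : AddChar Λ F) {j : S.J}
    (h : j ∉ S.I.image S.κ) : S.cs x j = 0 :=
  sum_eq_zero fun i hi => absurd (mem_image.2 ⟨i, (mem_filter.1 hi).1, (mem_filter.1 hi).2⟩) h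

theorem norm_cs_le (χ : AddChar Λ ℂ) (j : S.J) : ‖S.cs χ j‖ ≤ S.ρ χ := by
  classical
  by_cases h : j ∈ S.I.image S.κ
  · exact single_le_sum (f := fun j => ‖S.cs χ j‖) (fun _ _ => norm_nonneg _) (by convert h)
  · rw [S.cs_eq_zero χ (by convert h), norm_zero]
    exact S.ρ_nonneg χ

theorem ρ_eq_zero (χ : AddChar Λ ℂ) : S.ρ χ = 0 ↔ S.Zero χ :=
  ⟨fun h j => norm_le_zero_iff.1 (h ▸ S.norm_cs_le χ j),
    fun h => sum_eq_zero fun j _ => by rw [h j, norm_zero]⟩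

open Classical in
/-- a class sum is the sum of the class sums of a finer partition. -/
theorem cs_re {F J₁ J₂ : Type} [Field F] [Algebra ℂ F] (κ₁ : S.ι → J₁) (κ₂ : S.ι → J₂)
    (h : ∀ i ∈ S.I, ∀ k ∈ S.I, κ₂ i = κ₂ k → κ₁ i = κ₁ k) (x : AddChar Λ F) (j : J₁) :
    (S.re κ₁).cs x j = ∑ j' ∈ (S.I.filter fun i => κ₁ i = j).image κ₂, (S.re κ₂).cs x j' := by
  unfold cs
  rw [← sum_fiberwise_of_maps_to (g := κ₂) fun i hi => mem_image_of_mem κ₂ hi]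
  refine sum_congr rfl fun j' hj' => sum_congr ?_ fun _ _ => rfl
  obtain ⟨k, hk, rfl⟩ := mem_image.1 hj'
  obtain ⟨k1, k2⟩ := mem_filter.1 hk
  ext i
  simp only [mem_filter, re]
  exact ⟨fun a => ⟨a.1.1, a.2⟩, fun a => ⟨⟨a.1, (h i a.1 k k1 a.2).trans k2⟩, a.2⟩⟩

theorem zero_re {F J₁ J₂ : Type} [Field F] [Algebra ℂ F] (κ₁ : S.ι → J₁) (κ₂ : S.ι → J₂)
    (h : ∀ i ∈ S.I, ∀ k ∈ S.I, κ₂ i = κ₂ k → κ₁ i = κ₁ k) {x : AddChar Λ F}
    (hx : (S.re κ₂).Zero x) : (S.re κ₁).Zero x := fun j => by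
  rw [S.cs_re κ₁ κ₂ h]
  exact sum_eq_zero fun j' _ => hx j'

theorem ρ_re_le {J₁ J₂ : Type} (κ₁ : S.ι → J₁) (κ₂ : S.ι → J₂)
    (h : ∀ i ∈ S.I, ∀ k ∈ S.I, κ₂ i = κ₂ k → κ₁ i = κ₁ k) (χ : AddChar Λ ℂ) :
    (S.re κ₁).ρ χ ≤ (S.re κ₂).ρ χ := by
  classical
  unfold ρ
  refine (sum_le_sum fun j _ => (congrArg norm (S.cs_re κ₁ κ₂ h χ j)).le.trans
    (norm_sum_le _ _)).trans ?_
  rw [← sum_biUnion]
  · refine sum_le_sum_of_subset_of_nonneg (fun j' hj' => ?_) fun _ _ _ => norm_nonneg _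
    simp only [mem_biUnion, mem_image, mem_filter] at hj' ⊢
    obtain ⟨_, _, k, hk, e⟩ := hj'
    exact ⟨k, hk.1, e⟩
  · intro a _ b _ hab
    refine disjoint_left.2 fun j' h1 h2 => hab ?_
    simp only [mem_image, mem_filter] at h1 h2
    obtain ⟨i, hi, e1⟩ := h1
    obtain ⟨k, hk, e2⟩ := h2
    rw [← hi.2, ← hk.2]
    exact h i hi.1 k hk.1 (e1.trans e2.symm)

theorem ρ_re_eq {J₁ J₂ : Type} (κ₁ : S.ι → J₁) (κ₂ : S.ι → J₂)
    (h : ∀ i ∈ S.I, ∀ k ∈ S.I, κ₂ i = κ₂ k ↔ κ₁ i = κ₁ k) (χ : AddChar Λ ℂ) :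
    (S.re κ₁).ρ χ = (S.re κ₂).ρ χ :=
  le_antisymm (S.ρ_re_le _ _ (fun i a k b => (h i a k b).1) χ)
    (S.ρ_re_le _ _ (fun i a k b => (h i a k b).2) χ)

theorem ρ_le_ref {X : Type} (u : Λ → X) (χ : AddChar Λ ℂ) : S.ρ χ ≤ (S.ref u).ρ χ :=
  S.ρ_re_le S.κ _ (fun _ _ _ _ h => congrArg Prod.fst h) χ

theorem zero_of_ref {F X : Type} [Field F] [Algebra ℂ F] (u : Λ → X) {x : AddChar Λ F}
    (h : (S.ref u).Zero x) : S.Zero x :=
  S.zero_re S.κ _ (fun _ _ _ _ h => congrArg Prod.fst h) h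

theorem ρ_ref_le {X Y : Type} (u : Λ → X) (u' : Λ → Y)
    (h : ∀ i ∈ S.I, ∀ k ∈ S.I, u' (S.m i) = u' (S.m k) → u (S.m i) = u (S.m k))
    (χ : AddChar Λ ℂ) : (S.ref u).ρ χ ≤ (S.ref u').ρ χ :=
  S.ρ_re_le (fun i => (S.κ i, u (S.m i))) (fun i => (S.κ i, u' (S.m i))) (fun i a k b e =>
    Prod.ext (Prod.ext_iff.1 e).1 (h i a k b (Prod.ext_iff.1 e).2)) χ

theorem zero_ref {F X Y : Type} [Field F] [Algebra ℂ F] (u : Λ → X) (u' : Λ → Y)
    (h : ∀ i ∈ S.I, ∀ k ∈ S.I, u' (S.m i) = u' (S.m k) → u (S.m i) = u (S.m k))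
    {x : AddChar Λ F} (hx : (S.ref u').Zero x) : (S.ref u).Zero x :=
  S.zero_re (fun i => (S.κ i, u (S.m i))) (fun i => (S.κ i, u' (S.m i))) (fun i a k b e =>
    Prod.ext (Prod.ext_iff.1 e).1 (h i a k b (Prod.ext_iff.1 e).2)) hx

variable {S} in
theorem Good.ref (h : S.Good) {X : Type} (u : Λ → X) : (S.ref u).Good :=
  fun F _ _ x hx => h F x (S.zero_of_ref u hx)

variable {S} in
theorem Good.ref_of {X Y : Type} {u : Λ → X} (h : (S.ref u).Good) (u' : Λ → Y)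
    (hu : ∀ i ∈ S.I, ∀ k ∈ S.I, u' (S.m i) = u' (S.m k) → u (S.m i) = u (S.m k)) :
    (S.ref u').Good := fun F _ _ x hx => h F x (S.zero_ref u u' hu hx)

theorem cs_res {F : Type} [Field F] [Algebra ℂ F] (W : Submodule ℤ Λ) (x : AddChar Λ F)
    (j : S.J × (Λ ⧸ W)) : (S.res W).cs (rs W x) j * x j.2.out = (S.ref W.mkQ).cs x j := by
  unfold cs
  rw [sum_mul]
  refine sum_congr rfl fun i hi => ?_
  have e : (S.κ i, W.mkQ (S.m i)) = j := ((@mem_filter _ _ (fun _ => Classical.propDecidable _) _ _).1 hi).2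
  rw [mul_assoc, ← e]
  exact congrArg _ (char_sub x _ _)

theorem zero_res {F : Type} [Field F] [Algebra ℂ F] (W : Submodule ℤ Λ) (x : AddChar Λ F) :
    (S.res W).Zero (rs W x) ↔ (S.ref W.mkQ).Zero x :=
  forall_congr' fun j => by rw [← S.cs_res W x j, mul_eq_zero, or_iff_left (char_ne x _)]

theorem ρ_res (W : Submodule ℤ Λ) {χ : AddChar Λ ℂ} (h : ∀ l, ‖χ l‖ = 1) :
    (S.res W).ρ (rs W χ) = (S.ref W.mkQ).ρ χ :=
  sum_congr rfl fun j _ => by rw [← S.cs_res W χ j, norm_mul, h, mul_one]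

/-- other classes on the restricted system, finer than the classes modulo `W`. -/
theorem ρ_res_re {J : Type} (W : Submodule ℤ Λ) {χ : AddChar Λ ℂ} (h : ∀ l, ‖χ l‖ = 1)
    (κ : S.ι → J) (hκ : ∀ i ∈ S.I, ∀ k ∈ S.I, κ i = κ k → W.mkQ (S.m i) = W.mkQ (S.m k)) :
    ((S.res W).re κ).ρ (rs W χ) = (S.re κ).ρ χ := by
  classical
  refine sum_congr rfl fun j hj => ?_
  obtain ⟨k, hk, rfl⟩ : ∃ k ∈ S.I, κ k = j := by simpa [re, res] using hj
  have : ((S.res W).re κ).cs (rs W χ) (κ k) * χ (W.mkQ (S.m k)).out = (S.re κ).cs χ (κ k) := by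
    unfold cs
    rw [sum_mul]
    refine sum_congr rfl fun i hi => ?_
    rw [mul_assoc, ← hκ i (mem_filter.1 hi).1 k hk (mem_filter.1 hi).2]
    exact congrArg _ (char_sub χ _ _)
  rw [← this, norm_mul, h, mul_one]

variable {S} in
theorem Int.res (h : S.Int) (W : Submodule ℤ Λ) : (S.res W).Int := h

omit [AddCommGroup Λ] in
variable {S} in
theorem Int.ref (h : S.Int) {X : Type} (u : Λ → X) : (S.ref u).Int := h

variable {S} in
theorem Int.pair (h : S.Int) : S.pair.Int := by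
  rintro (i | i) hi
  · exact h i (inl_mem_disjSum.1 hi)
  · exact h i (inr_mem_disjSum.1 hi)

/-- a point in a fibre of the restriction to `W`. -/
theorem cs_quo {J : Type} (W : Submodule ℤ Λ) (c : S.ι → ℂ) (κ : S.ι → J) {χ χ₁ : AddChar Λ ℂ}
    {ψ : AddChar (Λ ⧸ W) ℂ} (h : ∀ l, χ l = χ₁ l * ψ (W.mkQ l)) (j : J) :
    (((S.quo W).wc fun i => c i * χ₁ (S.m i)).re κ).cs ψ j = ((S.wc c).re κ).cs χ j :=
  sum_congr rfl fun i _ => by
    show c i * χ₁ (S.m i) * ψ (W.mkQ (S.m i)) = c i * χ (S.m i)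
    rw [h, mul_assoc]

theorem ρ_quo {J : Type} (W : Submodule ℤ Λ) (c : S.ι → ℂ) (κ : S.ι → J) {χ χ₁ : AddChar Λ ℂ}
    {ψ : AddChar (Λ ⧸ W) ℂ} (h : ∀ l, χ l = χ₁ l * ψ (W.mkQ l)) :
    (((S.quo W).wc fun i => c i * χ₁ (S.m i)).re κ).ρ ψ = ((S.wc c).re κ).ρ χ :=
  sum_congr rfl fun j _ => congrArg norm (S.cs_quo W c κ h j)

theorem cs_pair_inl {F J : Type} [Field F] [Algebra ℂ F] (κ κ' : S.ι → J) {x : AddChar (Λ × Λ) F}
    {y : AddChar Λ F} (h : ∀ l, x (l, 0) = y l) (j : J) :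
    (S.pair.re (Sum.map κ κ')).cs x (Sum.inl j) = (S.re κ).cs y j := by
  classical
  unfold cs
  simp only [sum_filter]
  refine (sum_disjSum _ _ _).trans ?_
  simp [h]

theorem cs_pair_inr {F J : Type} [Field F] [Algebra ℂ F] (κ κ' : S.ι → J) {x : AddChar (Λ × Λ) F}
    {y : AddChar Λ F} (h : ∀ l, x (0, l) = y l) (j : J) :
    (S.pair.re (Sum.map κ κ')).cs x (Sum.inr j) = (S.re κ').cs y j := by
  classical
  unfold cs
  simp only [sum_filter]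
  refine (sum_disjSum _ _ _).trans ?_
  simp [h]

theorem ρ_pair {J : Type} (κ κ' : S.ι → J) {ψ : AddChar (Λ × Λ) ℂ} {χ χ' : AddChar Λ ℂ}
    (h : ∀ l, ψ (l, 0) = χ l) (h' : ∀ l, ψ (0, l) = χ' l) :
    (S.pair.re (Sum.map κ κ')).ρ ψ = (S.re κ).ρ χ + (S.re κ').ρ χ' := by
  unfold ρ
  have e : @image _ _ (fun _ _ => Classical.propDecidable _) (Sum.map κ κ') (S.I.disjSum S.I) =
      (@image _ _ (fun _ _ => Classical.propDecidable _) κ S.I).disjSum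
        (@image _ _ (fun _ _ => Classical.propDecidable _) κ' S.I) := by
    ext (j | j) <;> simp
  exact (sum_congr e fun _ _ => rfl).trans ((sum_disjSum _ _ _).trans (congrArg₂ (· + ·)
    (sum_congr rfl fun j _ => congrArg norm (S.cs_pair_inl κ κ' h j))
    (sum_congr rfl fun j _ => congrArg norm (S.cs_pair_inr κ κ' h' j))))

end Sys

theorem cs_poly {ι F : Type} [Field F] [Algebra ℂ F] (I : Finset ι) (c : ι → ℂ) (m : ι → Λ)
    (x : AddChar Λ F) (j : Unit) :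
    (poly I c m).cs x j = evN I (fun i => algebraMap ℂ F (c i)) m x := by
  unfold Sys.cs evN
  exact sum_congr (by ext; simp) fun _ _ => rfl

theorem zero_poly {ι F : Type} [Field F] [Algebra ℂ F] (I : Finset ι) (c : ι → ℂ) (m : ι → Λ)
    (x : AddChar Λ F) : (poly I c m).Zero x ↔ evN I (fun i => algebraMap ℂ F (c i)) m x = 0 :=
  ⟨fun h => cs_poly I c m x () ▸ h (), fun h j => (cs_poly I c m x j).trans h⟩

theorem ρ_poly {ι : Type} (I : Finset ι) (c : ι → ℂ) (m : ι → Λ) (χ : AddChar Λ ℂ) :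
    (poly I c m).ρ χ = ‖evN I c m χ‖ := by
  classical
  refine le_antisymm ?_ ((congrArg norm (cs_poly I c m χ ())).ge.trans (Sys.norm_cs_le _ χ _))
  refine (sum_le_sum_of_subset_of_nonneg (t := (univ : Finset Unit)) (subset_univ _)
    fun _ _ _ => norm_nonneg _).trans (le_of_eq ?_)
  rw [Fintype.sum_unique]
  exact congrArg norm (cs_poly I c m χ _)

end Pool.Agent.MP_c1891a_nt.G43
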