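import Pool.Agent.MP_c1891a_nt.G43.Spec3
import Pool.Agent.MP_c1891a_nt.H43.SpkC

/-
All dimensions: a unit value has a very small conjugate, and two of them are linked.
-/

namespace Pool.Agent.MP_c1891a_nt.G43

open Finset Filter Topology Module Polynomial H43

variable {Λ : Type} [AddCommGroup Λ] [Module.Free ℤ Λ] [Module.Finite ℤ Λ]

theorem core_short (a1 : SPigN) (n : ℕ) : ∃ (γ : ℝ) (N₀ : ℕ), 0 < γ ∧ ∀ N : ℕ, N₀ ≤ N →
    ∀ e : Fin n → ℤ, Gen N e → ∃ (κ : ℤ) (r : Fin n → ℤ), r ≠ 0 ∧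
      (∀ i, (N : ℤ) ∣ r i - κ * e i) ∧ ∀ i, (|r i| : ℝ) ≤ (N : ℝ) ^ (1 - γ) := by
  obtain ⟨γ, N₀, h0, h⟩ := a1 n
  refine ⟨min γ (1 / 2), N₀ + 1, by positivity, fun N hN e he => ?_⟩
  have h1 : (1 : ℝ) ≤ N := by exact_mod_cast (by omega : 1 ≤ N)
  rcases h N (by omega) e he with ⟨κ, r, r0, r1, r2⟩ | ⟨κ, -, r, r', r1, -, ⟨i, j, r0⟩, r2⟩
  · exact ⟨κ, r, r0, r1, fun i => (r2 i).trans (Real.rpow_le_rpow_of_exponent_le h1
      (by linarith [min_le_right γ (1 / 2)]))⟩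
  · exact ⟨κ, r, fun z => r0 (by simp [z]), r1, fun i => (r2 i).1.trans
      (Real.rpow_le_rpow_of_exponent_le h1 (by linarith [min_le_left γ (1 / 2)]))⟩

/-- a short representation of a torsion character. -/
theorem core_rep (a1 : SPigN) (a2 : SRepC) (a3 : SRep1) {ι : Type} (I : Finset ι) (m : ι → Λ) :
    ∃ (γ : ℝ) (N₀ : ℕ), 0 < γ ∧ ∀ χ : AddChar Λ ℂ, 0 < orderOf χ → N₀ ≤ orderOf χ →
      ∃ (ξ : ℂ) (k v : Λ →ₗ[ℤ] ℤ) (g β a : ℕ) (A₀ : ℤ), IsPrimitiveRoot ξ (orderOf χ) ∧ 0 < g ∧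
        g ∣ orderOf χ ∧ β.Coprime (orderOf χ) ∧ v ≠ 0 ∧
        (∀ l, χ l = ξ ^ ((orderOf χ / g : ℕ) * k l + β * v l)) ∧
        (∀ i ∈ I, 0 ≤ A₀ + v (m i) ∧ A₀ + v (m i) ≤ a) ∧
        (g * a : ℝ) ≤ (orderOf χ : ℝ) ^ (1 - γ) := by
  classical
  let b := Module.finBasis ℤ Λ
  obtain ⟨γ, N₁, h0, h⟩ := core_short a1 (finrank ℤ Λ)
  obtain ⟨R, hR⟩ : ∃ R : ℕ, R = ∑ i ∈ I, ∑ t, (b.repr (m i) t).natAbs := ⟨_, rfl⟩
  have ht : Tendsto (fun N : ℕ => (N : ℝ) ^ (γ / 2)) atTop atTop :=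
    (tendsto_rpow_atTop (by positivity)).comp tendsto_natCast_atTop_atTop
  obtain ⟨N₂, hN₂⟩ := eventually_atTop.1 (ht.eventually_ge_atTop (2 * R))
  refine ⟨γ / 2, N₁ + N₂, by positivity, fun χ N0 hN => ?_⟩
  obtain ⟨ξ, e, hξ, he, hg⟩ := a2 Λ χ _ b N0
  generalize orderOf χ = N at *
  obtain ⟨κ, r, r0, r1, r2⟩ := h N (by omega) _ hg
  obtain ⟨i₀, hi₀⟩ := Function.ne_iff.1 r0
  obtain ⟨w, w1, w2⟩ := Finset.extract_gcd r (s := univ) ⟨i₀, mem_univ _⟩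
  obtain ⟨h', hh⟩ : ∃ h', h' = univ.gcd r := ⟨_, rfl⟩
  rw [← hh] at w1
  have w3 : ∀ i, r i = h' * w i := fun i => w1 i (mem_univ i)
  have h1 : h' ≠ 0 := fun z => hi₀ (by simp [w3, z])
  obtain ⟨g, β, k, g0, gN, gh, hβ, hk⟩ := a3 _ N N0 _ hg w
    (fun s hs => w2 ▸ Finset.dvd_gcd fun i _ => hs i) h' κ fun i => w3 i ▸ r1 i
  obtain ⟨j, -, hj⟩ := exists_max_image univ (fun i => (w i).natAbs) ⟨i₀, mem_univ _⟩
  have hv : ∀ i ∈ I, |b.constr ℤ w (m i)| ≤ (R * (w j).natAbs : ℕ) := fun i hi => by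
    rw [Basis.constr_apply_fintype ℤ b, ← Int.natCast_natAbs, Nat.cast_le]
    refine (Int.natAbs_sum_le _ _).trans ?_
    calc _ ≤ ∑ t, (b.repr (m i) t).natAbs * (w j).natAbs := sum_le_sum fun t _ => by
          rw [smul_eq_mul, Int.natAbs_mul]
          exact Nat.mul_le_mul_left _ (hj t (mem_univ t))
      _ ≤ _ := by
          rw [← sum_mul, hR]
          exact Nat.mul_le_mul_right _ (single_le_sum (f := fun i => ∑ t, (b.repr (m i) t).natAbs)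
            (fun _ _ => Nat.zero_le _) hi)
  refine ⟨ξ, b.constr ℤ k, b.constr ℤ w, g, β, 2 * (R * (w j).natAbs), (R * (w j).natAbs : ℕ), hξ,
    g0, gN, hβ, fun z => hi₀ ?_, fun l => ?_, fun i hi => ?_, ?_⟩
  · have := LinearMap.congr_fun z (b i₀)
    rw [b.constr_basis] at this
    simp [w3, this]
  · have : e = ((N / g : ℕ) : ℤ) • b.constr ℤ k + (β : ℤ) • b.constr ℤ w := b.ext fun i => by
      simp only [LinearMap.add_apply, LinearMap.smul_apply, b.constr_basis, smul_eq_mul, hk i]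
      ring
    rw [he, this]
    rfl
  · have := abs_le.1 (hv i hi)
    push_cast at this ⊢
    constructor <;> linarith [this.1, this.2]
  · have Np : (0 : ℝ) < N := by positivity
    have c1 : g * (w j).natAbs ≤ (r j).natAbs := by
      rw [w3, Int.natAbs_mul]
      exact Nat.mul_le_mul_right _ (Nat.le_of_dvd (Int.natAbs_pos.2 h1)
        (by simpa using Int.natAbs_dvd_natAbs.2 gh))
    have c2 : (g : ℝ) * (w j).natAbs ≤ (N : ℝ) ^ (1 - γ) := by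
      refine le_trans ?_ (r2 j)
      rw [← Int.cast_abs, ← Int.natCast_natAbs, Int.cast_natCast]
      exact_mod_cast c1
    rw [show 1 - γ / 2 = γ / 2 + (1 - γ) by ring, Real.rpow_add Np]
    refine le_trans (le_of_eq ?_) (mul_le_mul (hN₂ N (by omega)) c2 (by positivity) (by positivity))
    push_cast; ring

/-- the character `l ↦ x ^ u l`. -/
noncomputable def pw {F : Type} [Field F] (x : F) (hx : x ≠ 0) (u : Λ →ₗ[ℤ] ℤ) : AddChar Λ F where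
  toFun l := x ^ u l
  map_zero_eq_one' := by simp
  map_add_eq_mul' a b := by rw [map_add, zpow_add₀ hx]

theorem core_term {a r τ : ℝ} {H : ℝ} (hr : 0 < r) (hH : 1 ≤ H) (hτ : 0 < τ) (h : r ≤ a * H) :
    Real.log (max a (τ / H)) ≤ Real.log a + (Real.log (max r τ) - Real.log r) := by
  have H0 : 0 < H := by linarith
  have a0 : 0 < a := (mul_pos_iff_of_pos_right H0).1 (hr.trans_le h)
  rcases le_total a (τ / H) with k | k
  · have b1 := Real.log_le_log hr h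
    have b2 := Real.log_le_log hτ (le_max_right r τ)
    rw [Real.log_mul a0.ne' H0.ne'] at b1
    rw [max_eq_right k, Real.log_div hτ.ne' H0.ne']
    linarith
  · rw [max_eq_left k]
    linarith [Real.log_le_log hr (le_max_left r τ)]

theorem core_spk (a1 : SPigN) (a2 : SRepC) (a3 : SRep1) (a4 : SPosN) (a5 : SDefN) (a6 : SMass)
    (a7 : SNz) (a8 : SEmb) (a9 : SNormP) {ι K : Type} [Field K] [NumberField K] (ι₀ : K →+* ℂ)
    {I : Finset ι} {c : ι → K} {m : ι → Λ} {I' : Finset Λ} {z : Λ → ℤ} (h2 : 2 ≤ finrank ℤ Λ)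
    (hc : ∀ i ∈ I, IsIntegral ℤ (c i) ∧ c i ≠ 0) (hm : Set.InjOn m I)
    (hu : ∀ u : Λ →ₗ[ℤ] ℤ, u ≠ 0 → ∃ i ∈ I, ∃ k ∈ I, u (m i) ≠ u (m k))
    (hR : (poly I' (fun μ => (z μ : ℂ)) id).Full)
    (hz : ∀ χ : AddChar Λ ℂ, evN I' (fun μ => (z μ : ℂ)) id χ =
      ∏ τ : K →+* ℂ, evN I (fun i => τ (c i)) m χ) {ε' : ℝ} (hε : 0 < ε') :
    ∃ T : Finset Λ, ∀ χ : AddChar Λ ℂ, IsOfFinOrder χ → NoRel T χ →
      H79.IsU (evN I (fun i => ι₀ (c i)) m χ) → ∃ j ∈ Cop (orderOf χ),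
        (poly I' (fun μ => (z μ : ℂ)) id).ρ (χ ^ j) ≤ Real.exp (-(orderOf χ : ℝ) ^ (1 - ε')) := by
  classical
  obtain ⟨f, hf, hE⟩ := a8 K ι₀
  obtain ⟨m₀, T₁, hm₀, hB⟩ := a4 Λ ι K ι₀ I c m I' z h2 hc hm hu hR fun χ h => by
    rw [hz, prod_eq_zero (mem_univ ι₀) h]
  obtain ⟨D, hD⟩ : ∃ D : ℕ, D = Fintype.card (K →+* ℂ) := ⟨_, rfl⟩
  have hD0 : (0 : ℝ) < D := by
    have : Nonempty (K →+* ℂ) := ⟨ι₀⟩
    rw [hD]
    exact_mod_cast Fintype.card_pos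
  have e0 : 0 < m₀ / (4 * D) := by positivity
  obtain ⟨A, T₂, hA⟩ := a6 Λ _ (fun μ _ => ⟨z μ, rfl⟩) hR.2 _ _ e0 hε
  obtain ⟨T₃, hT₃⟩ := a7 Λ _ fun F _ _ x hx t => by have := hR.1 F x hx _ t; omega
  obtain ⟨γ, N₁, hγ, hrep⟩ := core_rep a1 a2 a3 I m
  choose N₂ hN₂ using fun τ : K →+* ℂ =>
    a5 Λ ι I (fun i => τ (c i)) m f (A + 1) γ _ hf hγ e0
  obtain ⟨N₃, hN₃⟩ := exists_nat_ge (∏ τ : K →+* ℂ, max 1 (∑ i ∈ I, ‖τ (c i)‖))
  have : Nontrivial Λ := Module.nontrivial_of_finrank_pos (R := ℤ) (by omega)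
  obtain ⟨l₀, hl₀⟩ := exists_ne (0 : Λ)
  refine ⟨T₁ ∪ T₂ ∪ T₃ ∪ {(N₁ + (∑ τ, N₂ τ) + N₃).factorial • l₀}, fun χ hχ hT hU => ?_⟩
  have hN := hT.le_order hχ hl₀ (mem_union_right _ (mem_singleton_self _))
  have hN0 := hχ.orderOf_pos
  have r0 : ∀ j ∈ Cop (orderOf χ), (poly I' (fun μ => (z μ : ℂ)) id).ρ (χ ^ j) ≠ 0 := fun j hj =>
    hT₃ _ (hχ.pow) ((hT.mono (by intro; simp +contextual)).pow (mem_filter.1 hj).2)
  refine (hA χ hχ (hT.mono (by intro; simp +contextual)) r0).resolve_left fun hms => ?_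
  obtain ⟨ξ, k, v, g, β, a, A₀, hξ, hg0, hgN, hβ, hv, hχe, hA₀, hga⟩ := hrep χ hN0 (by omega)
  have n1 : ∀ j l, ‖(χ ^ j) l‖ = 1 := fun j => char_norm hχ.pow
  unfold Sys.ms at hms
  simp only [ρ_poly] at hms r0
  generalize orderOf χ = N at *
  have hξ0 : ξ ≠ 0 := hξ.ne_zero hN0.ne'
  obtain ⟨L, _, _, _, ι₁, ξ', Γ, hι, hξ', hrk, hΓ, hcl, hG⟩ := hE N ξ hN0 hξ
  have hξ'0 : ξ' ≠ 0 := fun e => hξ0 (by rw [← hξ', e, map_zero])
  have hp : ξ' ^ N = 1 := ι₁.injective (by rw [map_pow, hξ', hξ.pow_eq_one, map_one])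
  obtain ⟨k', hk'⟩ : ∃ k' : Λ →ₗ[ℤ] ℤ, ∀ l, k' l = (N / g : ℕ) * k l :=
    ⟨((N / g : ℕ) : ℤ) • k, fun _ => rfl⟩
  have pg : ∀ {F : Type} [Field F] (x : F) (hx : x ≠ 0), x ^ N = 1 → pw x hx k' ^ g = 1 := by
    intro F _ x hx h
    ext l
    change (x ^ k' l) ^ g = 1
    rw [hk', ← zpow_natCast, ← zpow_mul, mul_right_comm, ← Nat.cast_mul, Nat.div_mul_cancel hgN,
      zpow_mul, zpow_natCast, h, one_zpow]
  have hχ' : ∀ l, χ l = pw ξ hξ0 k' l * (ξ ^ β) ^ v l := fun l => by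
    rw [hχe, zpow_add₀ hξ0, ← hk', zpow_mul, zpow_natCast]; rfl
  rcases hB L ι₁ (pw ξ' hξ'0 k') v A₀ hι (isOfFinOrder_iff_pow_eq_one.2 ⟨g, hg0, pg _ _ hp⟩) hv
    (fun i hi => (hA₀ i hi).1) with ⟨l, l1, l2, l3, l4⟩ | ⟨F0, hM⟩
  · refine hT l (by simp [l1]) l2 ?_
    have := congrArg ι₁ l4
    change ι₁ (ξ' ^ k' l) = _ at this
    rw [map_zpow₀, hξ', map_one] at this
    rw [hχ', l3, zpow_zero, mul_one]
    exact this
  obtain ⟨G, hGd⟩ : ∃ G : (K →+* ℂ) → ℂ → ℂ[X], ∀ τ x, G τ x =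
    ∑ i ∈ I, C (τ (c i) * x ^ k' (m i)) * X ^ (A₀ + v (m i)).toNat := ⟨_, fun _ _ => rfl⟩
  have G1 : ∀ σ : L →+* ℂ, (FP I (fun i => algebraMap K L (c i)) m (pw ξ' hξ'0 k') v A₀).map σ =
      G (σ.comp (algebraMap K L)) (σ ξ') := fun σ => by
    rw [hGd, FP, Polynomial.map_sum]
    refine sum_congr rfl fun i _ => ?_
    rw [Polynomial.map_mul, map_C, Polynomial.map_pow, map_X, map_mul, ← map_zpow₀]
    rfl
  have G2 : ∀ τ j, G τ (ξ ^ j) = FP I (fun i => τ (c i)) m (pw ξ hξ0 k' ^ j) v A₀ := fun τ j => by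
    rw [hGd, FP]
    refine sum_congr rfl fun i _ => ?_
    rw [AddChar.pow_apply, ← zpow_natCast, ← zpow_mul, mul_comm (j : ℤ), zpow_mul, zpow_natCast]
    rfl
  have s1 := hG fun τ x => (G τ x).logMahlerMeasure
  simp only [← G1, G2] at s1
  rw [s1] at hM
  have s0 := hG fun τ x => if G τ x = 0 then 1 else 0
  rw [sum_eq_zero fun σ _ => by
    rw [← G1, if_neg ((Polynomial.map_ne_zero_iff σ.injective).2 F0)]] at s0
  have s2 := sum_le_sum fun τ (_ : τ ∈ univ) => hN₂ τ N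
    (by have := single_le_sum (f := N₂) (fun _ _ => Nat.zero_le _) (mem_univ τ); omega)
    χ _ _ v g a A₀ (Γ τ) (hξ.pow_of_coprime β hβ) hg0 hgN (pg ξ hξ0 hξ.pow_eq_one) hχ' hA₀ hga
    (hΓ τ) (hcl τ) fun j hj e => by
      have := (sum_eq_zero_iff_of_nonneg fun _ _ => by positivity).1
        ((sum_eq_zero_iff_of_nonneg fun _ _ => by positivity).1 s0.symm τ (mem_univ τ)) j hj
      rw [G2, if_pos e] at this
      exact one_ne_zero this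
  rw [sum_sub_distrib, sum_const, card_univ, ← hD, nsmul_eq_mul] at s2
  obtain ⟨e, he⟩ : ∃ e : Λ → ℤ, ∀ l, χ l = ξ ^ e l := ⟨_, hχe⟩
  obtain ⟨-, s3⟩ := unit_sum a9 ι₁ (u := ∑ i ∈ I, algebraMap K L (c i) * ξ' ^ e (m i))
    (by simpa only [map_sum, map_mul, hι, map_zpow₀, hξ', evN, he] using hU)
  have s4 := hG fun τ x => Real.log ‖∑ i ∈ I, τ (c i) * x ^ e (m i)‖
  have s5 : ∀ (τ : K →+* ℂ) (j : ℕ), ∑ i ∈ I, τ (c i) * (ξ ^ j) ^ e (m i) =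
      evN I (fun i => τ (c i)) m (χ ^ j) := fun τ j => sum_congr rfl fun i _ => by
    rw [AddChar.pow_apply, he, ← zpow_natCast, ← zpow_mul, mul_comm (j : ℤ), zpow_mul,
      zpow_natCast]
  simp only [map_sum, map_mul, map_zpow₀] at s3
  simp only [RingHom.comp_apply, s5] at s4
  rw [s4] at s3
  have r1 : ∀ (τ : K →+* ℂ) (j : ℕ), ‖evN I' (fun μ => (z μ : ℂ)) id (χ ^ j)‖ ≤
      ‖evN I (fun i => τ (c i)) m (χ ^ j)‖ * ((N : ℝ) + 1) := fun τ j => by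
    rw [hz, norm_prod, ← mul_prod_erase _ _ (mem_univ τ)]
    refine mul_le_mul_of_nonneg_left ?_ (norm_nonneg _)
    calc _ ≤ ∏ τ' ∈ univ.erase τ, max 1 (∑ i ∈ I, ‖τ' (c i)‖) :=
          prod_le_prod (fun _ _ => norm_nonneg _) fun τ' _ =>
            (norm_sum_le_of_le _ fun i _ => by rw [norm_mul, n1, mul_one]).trans (le_max_right _ _)
      _ ≤ ∏ τ' : K →+* ℂ, max 1 (∑ i ∈ I, ‖τ' (c i)‖) :=
          prod_le_prod_of_subset_of_one_le (subset_univ _) (fun _ _ => by positivity)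
            fun _ _ _ => le_max_left _ _
      _ ≤ _ := hN₃.trans (by exact_mod_cast (by omega))
  have b3 : ∀ τ : K →+* ℂ, ∑ j ∈ Γ τ, Real.log (max ‖evN I (fun i => τ (c i)) m (χ ^ j)‖
      (((N : ℝ) + 1) ^ (A + 1))⁻¹) ≤ ∑ j ∈ Γ τ, Real.log ‖evN I (fun i => τ (c i)) m (χ ^ j)‖ +
      m₀ / (4 * D) * N.totient := by
    intro τ
    refine le_trans (sum_le_sum fun j hj => ?_) (le_trans (le_of_eq sum_add_distrib)
      (add_le_add le_rfl (le_trans (sum_le_sum_of_subset_of_nonneg (hΓ τ) fun j hj _ => ?_) hms)))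
    · rw [pow_succ, mul_inv, ← div_eq_mul_inv]
      exact core_term ((norm_nonneg _).lt_of_ne' (r0 j (hΓ τ hj)))
        (le_add_of_nonneg_left (Nat.cast_nonneg N)) (by positivity) (r1 τ j)
    · exact sub_nonneg.2 (Real.log_le_log ((norm_nonneg _).lt_of_ne' (r0 j hj)) (le_max_left _ _))
  have b4 := s2.trans (sum_le_sum fun τ _ => b3 τ)
  rw [sum_add_distrib, s3, zero_add, sum_const, card_univ, ← hD, nsmul_eq_mul] at b4
  have e5 : (N.totient : ℝ) ≤ finrank ℚ L := by exact_mod_cast hrk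
  have e6 : D * (m₀ / (4 * D)) = m₀ / 4 := by field_simp
  have e7 : (0 : ℝ) < N.totient := by exact_mod_cast Nat.totient_pos.2 hN0
  rw [← mul_assoc (D : ℝ), e6] at b4
  nlinarith [mul_le_mul_of_nonneg_left e5 hm₀.le, mul_pos hm₀ e7]

theorem core_win {δ : ℝ} (hδ : 0 < δ) : ∃ (ε : ℝ) (a : ℕ), 0 < ε ∧ ∀ M N : ℕ, 0 < M → 0 < N →
    M ^ a ≤ N ^ (a + 1) → Real.exp (-(N : ℝ) ^ (1 - ε)) ≤ Real.exp (-(M : ℝ) ^ (1 - δ)) := by
  obtain ⟨t, ht⟩ : ∃ t, t = min δ 1 := ⟨_, rfl⟩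
  have t0 : 0 < t := by rw [ht]; positivity
  have t1 : t ≤ δ := ht ▸ min_le_left _ _
  have t2 : t ≤ 1 := ht ▸ min_le_right _ _
  obtain ⟨a, ha⟩ := exists_nat_ge (2 / t)
  have a0 : (0 : ℝ) < a := lt_of_lt_of_le (by positivity) ha
  rw [div_le_iff₀ t0] at ha
  refine ⟨t / 2, a, by positivity, fun M N hM hN h => Real.exp_le_exp.2 (neg_le_neg ?_)⟩
  have M1 : (1 : ℝ) ≤ M := by exact_mod_cast hM
  have N1 : (1 : ℝ) ≤ N := by exact_mod_cast hN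
  have h2 : ((M : ℝ) ^ a) ≤ (N : ℝ) ^ (a + 1) := by exact_mod_cast h
  have h3 := Real.rpow_le_rpow (by positivity) h2 (div_nonneg (sub_nonneg.2 t2) a0.le)
  rw [← Real.rpow_natCast, ← Real.rpow_natCast, ← Real.rpow_mul (Nat.cast_nonneg M),
    ← Real.rpow_mul (Nat.cast_nonneg N), mul_div_cancel₀ _ a0.ne'] at h3
  refine (Real.rpow_le_rpow_of_exponent_le M1 (by linarith)).trans
    (h3.trans (Real.rpow_le_rpow_of_exponent_le N1 ?_))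
  rw [← mul_div_assoc, div_le_iff₀ a0]
  push_cast
  nlinarith

theorem sCore (a1 : SPigN) (a2 : SRepC) (a3 : SRep1) (a4 : SPosN) (a5 : SDefN) (a6 : SMass)
    (a7 : SNz) (a8 : SEmb) (a9 : SNormP) (a10 : SNormN) (a11 : SPairN) : SCore := by
  intro Λ ι _ _ _ I c m h2 hc hm hu hF
  classical
  obtain ⟨K, _, _, ι₀, c', hc'⟩ := num_field I c fun i hi =>
    ((hc i hi).1.tower_top (A := ℚ)).isAlgebraic
  have ce : ∀ χ : AddChar Λ ℂ, evN I (fun i => ι₀ (c' i)) m χ = evN I c m χ := fun χ =>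
    sum_congr rfl fun i hi => congrArg (· * _) (hc' i hi)
  have ci : ∀ i ∈ I, IsIntegral ℤ (c' i) ∧ c' i ≠ 0 := fun i hi =>
    ⟨(int_map ι₀).1 (hc' i hi ▸ (hc i hi).1), fun e => (hc i hi).2 (by rw [← hc' i hi, e, map_zero])⟩
  have zz : ∀ (F J : Type) [Field F] [Algebra ℂ F] (κ : ι → J) (x : AddChar Λ F),
      ((poly I (fun i => ι₀ (c' i)) m).re κ).Zero x → ((poly I c m).re κ).Zero x :=
    fun F J _ _ κ x h j => by
      rw [← h j]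
      exact sum_congr rfl fun i hi => by
        have := hc' i (mem_filter.1 hi).1
        simp only [this]
  obtain ⟨I', z, -, hR, hz⟩ := a10 Λ ι K ι₀ I c' m (fun i hi => (ci i hi).1)
    ⟨fun F _ _ x hx => hF.1 F x (zz F _ _ x hx), fun u h F _ _ x hx => hF.2 u h F x (zz F _ _ x hx)⟩
  obtain ⟨δ, T₀, Φ, hδ, hΦ, hP⟩ := a11 Λ _ (fun μ _ => ⟨z μ, rfl⟩) hR (by omega)
  obtain ⟨ε, a, hε, ha⟩ := core_win hδ
  obtain ⟨T₁, hT₁⟩ := core_spk a1 a2 a3 a4 a5 a6 a7 a8 a9 ι₀ h2 ci hm hu hR hz hε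
  have hJ : ∀ χ : AddChar Λ ℂ, ∃ j : ℕ, j.Coprime (orderOf χ) ∧ (IsOfFinOrder χ → NoRel T₁ χ →
      H79.IsU (evN I c m χ) → (poly I' (fun μ => (z μ : ℂ)) id).ρ (χ ^ j) ≤
        Real.exp (-(orderOf χ : ℝ) ^ (1 - ε))) := fun χ => by
    by_cases h : IsOfFinOrder χ ∧ NoRel T₁ χ ∧ H79.IsU (evN I c m χ)
    · obtain ⟨j, j1, j2⟩ := hT₁ χ h.1 h.2.1 (ce χ ▸ h.2.2)
      exact ⟨j, (mem_filter.1 j1).2, fun _ _ _ => j2⟩
    · exact ⟨1, Nat.coprime_one_left _, fun a b c => absurd ⟨a, b, c⟩ h⟩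
  choose J J1 J2 using hJ
  refine ⟨a, T₀ ∪ T₁, Φ, J, hΦ, J1, fun χ χ' M M0 p p' w w' u u' t t' => ?_⟩
  have k : ∀ χ : AddChar Λ ℂ, χ ^ M = 1 → M ^ a ≤ orderOf χ ^ (a + 1) → H79.IsU (evN I c m χ) →
      NoRel (T₀ ∪ T₁) χ → (χ ^ J χ) ^ M = 1 ∧ NoRel T₀ (χ ^ J χ) ∧
      (poly I' (fun μ => (z μ : ℂ)) id).ρ (χ ^ J χ) ≤ Real.exp (-(M : ℝ) ^ (1 - δ)) :=
    fun χ p w u t => ⟨by rw [← pow_mul, mul_comm, pow_mul, p, one_pow],
      (t.mono subset_union_left).pow (J1 χ),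
      (J2 χ (fin_of_pow M0 p) (t.mono subset_union_right) u).trans
        (ha M _ M0 (fin_of_pow M0 p).orderOf_pos w)⟩
  obtain ⟨k1, k2, k3⟩ := k χ p w u t
  obtain ⟨k4, k5, k6⟩ := k χ' p' w' u' t'
  exact hP _ _ M M0 k1 k4 k2 k5 k3 k6

end Pool.Agent.MP_c1891a_nt.G43
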