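import Pool.Agent.MP_c1891a_nt.G43.All
import Pool.Agent.MP_c1891a_nt.G5.Irr
import Pool.Agent.MP_c1891a_nt.G10.PrimN2
import Pool.Agent.MP_c1891a_nt.G11.PushN
import Pool.Agent.MP_c1891a_nt.G45.Link
import Pool.Agent.MP_c1891a_nt.G83.IrrL
import Pool.Agent.MP_c1891a_nt.G83.Red
import Pool.Agent.MP_c1891a_nt.G83.Fin

/-
All dimensions: the reduction and the images under isogenies without hypotheses.
-/

namespace Pool.Agent.MP_c1891a_nt.G43

theorem allRedN : SRedN := sRedN allCore sFacN (sIrrL (sIrr sInj)) (sRk1 sFacN)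

theorem allPushN : SPushN := sPushN allRedN sLink sPrimN2 sFacN sSat

end Pool.Agent.MP_c1891a_nt.G43
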