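import Pool.Agent.MP_c1891a_nt.G43.Spec4
import Pool.Agent.MP_c1891a_nt.G36.Abs

/-
The count of the points near the zero set, each point with its own denominator.
-/

namespace Pool.Agent.MP_c1891a_nt.G43

open Finset Filter Complex

/-- a determinant of monomials times powers of the denominators is an integer -/
lemma habs_det_int {k D : ℕ} (y : (Fin k → Fin D) → Fin k → ℂ) (ρ : ℂ) (q : (Fin k → Fin D) → ℕ)
    (h : ∀ b i, ∃ z : ℤ, y b i * (ρ * q b) = z) :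
    ∃ z : ℤ, ρ ^ (∑ a : Fin k → Fin D, ∑ i, (a i : ℕ)) * (∏ b, (q b : ℂ) ^ (k * D)) *
      (Matrix.of fun a b : Fin k → Fin D => ∏ i, y b i ^ (a i : ℕ)).det = z := by
  choose z hz using h
  refine ⟨(Matrix.of fun a b : Fin k → Fin D =>
    (q b : ℤ) ^ (k * D - ∑ i, (a i : ℕ)) * ∏ i, z b i ^ (a i : ℕ)).det, ?_⟩
  rw [mul_assoc, ← Matrix.det_mul_row, ← Finset.prod_pow_eq_pow_sum, ← Matrix.det_mul_column,
    ← eq_intCast (Int.castRingHom ℂ), RingHom.map_det]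
  congr 1
  ext a b
  have hk : ∑ i, (a i : ℕ) ≤ k * D :=
    (Finset.sum_le_card_nsmul _ _ D fun i _ => (a i).2.le).trans (le_of_eq (by simp))
  obtain ⟨t, ht⟩ := Nat.exists_eq_add_of_le hk
  simp only [Matrix.of_apply, RingHom.mapMatrix_apply, Matrix.map_apply, map_prod, map_pow, map_mul,
    eq_intCast, ← hz, mul_pow, Finset.prod_mul_distrib, Finset.prod_pow_eq_pow_sum,
    Int.cast_natCast]
  rw [ht, Nat.add_sub_cancel_left]
  ring

lemma habs_geo (h3 : SStab) (h5 : SAux) {N : ℕ → ℕ} {K : Type} [NontriviallyNormedField K]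
    [IsUltrametricDist K] [IsAlgClosed K] {M : Subring (ℕ → ℂ)} {cl : M →+* K}
    (hN : Tendsto N atTop atTop) (hU : UF N M cl) {d : ℕ} (S : ℕ → Finset (Fin d → ℂ))
    (hL : Large N S) (hS : Stab N cl S) {g : ℝ} (hg : 0 < g) (hN0 : ∀ n, 0 < N n)
    (hb : ∀ n, ∀ θ ∈ S n, ∀ l, ‖θ l‖ ≤ (N n : ℝ) ^ (-g)) (ρ : M) (hρ : ∀ n, ρ.1 n ≠ 0)
    (hρ' : ∀ n, ‖ρ.1 n‖ ≤ N n) (Q : ℕ → (Fin d → ℂ) → ℕ)
    (hQ : ∀ n θ, 0 < Q n θ ∧ Q n θ ≤ N n)
    (hint : ∀ n, ∀ θ ∈ S n, ∀ l, ∃ z : ℤ, θ l * (ρ.1 n * Q n θ) = z)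
    (hloc : ∀ (k : ℕ) (σ : Fin k → Fin d), (MvPolynomial.vanishingIdeal K (IP cl S)).IsPrime →
      0 < k → IsTranscendenceBasis K (fun i =>
        Ideal.Quotient.mk (MvPolynomial.vanishingIdeal K (IP cl S)) (MvPolynomial.X (σ i))) →
      ∃ n e, n < k ∧ Low (IP cl S) n e) : False := by
  have hN1 : ∀ n, (1 : ℝ) ≤ N n := fun n => by exact_mod_cast hN0 n
  have hb' : ∀ n, ∀ θ ∈ S n, ∀ l, ‖θ l‖ ≤ N n := fun n θ hθ l =>
    (hb n θ hθ l).trans ((Real.rpow_le_one_of_one_le_of_nonpos (hN1 n) (by linarith)).trans (hN1 n))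
  obtain ⟨-, hp, hdet⟩ := h3 N K M cl d S hN hU hL hb'
  have hp := hp hS
  have hq : ∀ θ : Fin d → M, ∃ q : M, ‖cl q‖ ≤ Real.exp 1 ∧
      ∀ n, q.1 n = (Q n fun l => (θ l).1 n : ℕ) := fun θ => by
    have b : ∀ n, ‖((Q n fun l => (θ l).1 n : ℕ) : ℂ)‖ ≤ (N n : ℝ) := fun n => by
      rw [Complex.norm_natCast]; exact_mod_cast (hQ n _).2
    exact ⟨⟨fun n => (Q n fun l => (θ l).1 n : ℕ), abs_mem hU (Eventually.of_forall b)⟩,
      hU.le _ _ (Eventually.of_forall fun n => by rw [Real.rpow_one]; exact b n), fun _ => rfl⟩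
  choose qq q1 q2 using hq
  have q3 : ∀ n θ, (Q n θ : ℂ) ≠ 0 := fun n θ => Nat.cast_ne_zero.2 (hQ n θ).1.ne'
  obtain ⟨k, σ, hσ⟩ := abs_basis (MvPolynomial.vanishingIdeal K (IP cl S))
  rcases Nat.eq_zero_or_pos k with rfl | hk
  · obtain ⟨θ, θ', hθ⟩ := abs_two_pts hN hU hL hb'
    have e := abs_const _ σ hσ _ ⟨θ, hθ.mono fun n hn => hn.1, fun _ => rfl⟩ _
      ⟨θ', hθ.mono fun n hn => hn.2.1, fun _ => rfl⟩
    have h1 : ∀ l, ∀ᶠ n in hyperfilter ℕ, ‖((θ l - θ' l) * (ρ * qq θ * qq θ')).1 n‖ < 1 :=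
      fun l => abs_lt_one hN hU _ (by rw [map_mul, map_sub, congrFun e l]; simp)
    obtain ⟨n, ⟨h2, h4, h6⟩, h7⟩ := (hθ.and (eventually_all.2 h1)).exists
    refine h6 (funext fun l => ?_)
    obtain ⟨z, hz⟩ := hint n _ h2 l
    obtain ⟨z', hz'⟩ := hint n _ h4 l
    have h8 : ((θ l - θ' l) * (ρ * qq θ * qq θ')).1 n =
        ((z * (Q n fun l => (θ' l).1 n : ℕ) - z' * (Q n fun l => (θ l).1 n : ℕ) : ℤ) : ℂ) := by
      change ((θ l).1 n - (θ' l).1 n) * (ρ.1 n * (qq θ).1 n * (qq θ').1 n) = _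
      push_cast
      rw [← hz, ← hz', q2, q2]
      ring
    have h9 := h7 l
    have h10 := h8
    rw [h8, Complex.norm_intCast, ← Int.cast_abs, ← Int.cast_one, Int.cast_lt,
      Int.abs_lt_one_iff] at h9
    rw [h9, Int.cast_zero] at h10
    change ((θ l).1 n - (θ' l).1 n) * (ρ.1 n * (qq θ).1 n * (qq θ').1 n) = _ at h10
    rw [q2, q2] at h10
    exact sub_eq_zero.1 ((mul_eq_zero.1 h10).resolve_right
      (mul_ne_zero (mul_ne_zero (hρ n) (q3 _ _)) (q3 _ _)))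
  · obtain ⟨n, e, hnk, hlow⟩ := hloc k σ hp hk hσ
    obtain ⟨D, -, hD⟩ := h5 K k n e (Real.exp (-g)) (Real.exp 1 * Real.exp 1) hnk (Real.exp_pos _).le
      (Real.exp_lt_one_iff.2 (by linarith))
      (one_le_mul_of_one_le_of_one_le (Real.one_le_exp zero_le_one) (Real.one_le_exp zero_le_one))
    have hσi : Function.Injective σ := fun i j hij => hσ.1.injective (by simp only [hij])
    obtain ⟨q, hq, hq'⟩ := hdet (Fin k → Fin D) _ (abs_exp_inj hσi) (by
      intro θ hθ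
      simp only [abs_prod_pow]
      let δ : M := (Matrix.of fun a b : Fin k → Fin D => ∏ i, θ b (σ i) ^ (a i : ℕ)).det
      have e1 : cl δ = (Matrix.of fun a b : Fin k → Fin D =>
          ∏ i, cl (θ b (σ i)) ^ (a i : ℕ)).det := by
        rw [RingHom.map_det]
        congr 1
        ext a b
        simp
      have e2 : ∀ n, δ.1 n = (Matrix.of fun a b : Fin k → Fin D =>
          ∏ i, (θ b (σ i)).1 n ^ (a i : ℕ)).det := by
        intro n
        refine (RingHom.map_det ((Pi.evalRingHom (fun _ => ℂ) n).comp M.subtype) _).trans ?_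
        congr 1
        ext a b
        simp
      have h1 := hD d σ _ hlow (fun b l => cl (θ b l)) fun b =>
        ⟨⟨θ b, hθ b, fun _ => rfl⟩, fun l => hU.le _ _ ((hθ b).mono fun n hn => hb n _ hn l)⟩
      have h2 : ‖cl ρ‖ ≤ Real.exp 1 :=
        hU.le _ _ (Eventually.of_forall fun n => by rw [Real.rpow_one]; exact hρ' n)
      have h4 : ‖cl (ρ ^ (∑ a : Fin k → Fin D, ∑ i, (a i : ℕ)) * (∏ b, qq (θ b) ^ (k * D)) * δ)‖ <
          1 := by
        rw [map_mul, map_mul, map_pow, norm_mul, norm_mul, norm_pow, e1, mul_comm, map_prod,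
          norm_prod]
        refine lt_of_le_of_lt (mul_le_mul_of_nonneg_left ?_ (norm_nonneg _)) h1
        rw [mul_pow]
        refine mul_le_mul ((pow_le_pow_left₀ (norm_nonneg _) h2 _).trans
          (pow_le_pow_right₀ (Real.one_le_exp zero_le_one) (abs_sum_le k D))) ?_
          (by positivity) (by positivity)
        refine (Finset.prod_le_prod (g := fun _ => Real.exp 1 ^ (k * D)) (fun _ _ => norm_nonneg _)
          fun b _ => ?_).trans (le_of_eq ?_)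
        · rw [map_pow, norm_pow]
          exact pow_le_pow_left₀ (norm_nonneg _) (q1 _) _
        · rw [Finset.prod_const, ← pow_mul]
          simp
      filter_upwards [abs_lt_one hN hU _ h4, eventually_all.2 hθ] with n h6 h7
      obtain ⟨z, hz⟩ := habs_det_int (fun b i => (θ b (σ i)).1 n) (ρ.1 n)
        (fun b => Q n fun l => (θ b l).1 n) fun b i => hint n _ (h7 b) (σ i)
      have h8 : (ρ ^ (∑ a : Fin k → Fin D, ∑ i, (a i : ℕ)) * (∏ b, qq (θ b) ^ (k * D)) * δ).1 n =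
          (z : ℂ) := by
        rw [← hz, ← e2]
        simp only [← q2]
        have := map_prod ((Pi.evalRingHom (fun _ => ℂ) n).comp M.subtype)
          (fun b => qq (θ b) ^ (k * D)) Finset.univ
        exact congrArg (fun t => ρ.1 n ^ (∑ a : Fin k → Fin D, ∑ i, (a i : ℕ)) * t * δ.1 n) this
      rw [h8, Complex.norm_intCast, ← Int.cast_abs, ← Int.cast_one, Int.cast_lt,
        Int.abs_lt_one_iff] at h6
      rw [h6, Int.cast_zero] at hz
      exact (mul_eq_zero.1 hz).resolve_left (mul_ne_zero (pow_ne_zero _ (hρ n))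
        (Finset.prod_ne_zero_iff.2 fun _ _ => pow_ne_zero _ (q3 _ _))))
    simp only [abs_prod_pow] at hq'
    exact hq (abs_indep _ σ hσ.1 q hq')

open Classical in
lemma habs_core (h1 : SUF) (h2 : SUF2) (h3 : SStab) (h4 : SLoc) (h5 : SAux) {ι J : Type} {d : ℕ}
    (I' : Finset ι) (m : ι → Fin d → ℤ) (κ : ι → J) (c : ℕ → ι → ℂ) (N : ℕ → ℕ)
    (S : ℕ → Finset (Fin d → ℂ)) (A' : ℕ) (hN : Tendsto N atTop atTop) (hN0 : ∀ n, 0 < N n)
    (hL : Large N S) (hc : ∀ n, ∀ i ∈ I', ‖c n i‖ ≤ 1)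
    (hint : ∀ n, ∀ θ ∈ S n, ∃ q : ℕ, 0 < q ∧ q ≤ N n ∧ ∀ l, ∃ a : ℕ, a < q ∧ θ l = a / q)
    (hs : ∀ n, ∀ θ ∈ S n, ∀ j,
      ‖∑ i ∈ I' with κ i = j, absE (c n) m θ i‖ * ((N n : ℝ) + 1) ^ n ≤ 1)
    (hb : ∀ u : Fin d → ℤ, u ≠ 0 → ∃ Q : Finset (J × ℤ), ∀ n, ∀ θ ∈ S n,
      1 ≤ (∑ q ∈ Q, ‖∑ i ∈ I' with κ i = q.1 ∧ ∑ l, u l * m i l = q.2, absE (c n) m θ i‖) *
        ((N n : ℝ) + 1) ^ A') : False := by
  obtain ⟨K, _, _, M, cl, hU⟩ := h1 N hN
  obtain ⟨_, _, hUK, hexp⟩ := h2 N K M cl hN hU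
  have hN1 : ∀ n, (1 : ℝ) ≤ N n := fun n => by exact_mod_cast hN0 n
  have hNp : ∀ n, (0 : ℝ) < N n := fun n => by exact_mod_cast hN0 n
  have hreal : ∀ n, ∀ θ ∈ S n, ∀ l, ∃ x : ℝ, 0 ≤ x ∧ x ≤ 1 ∧ θ l = x := by
    intro n θ hθ l
    obtain ⟨q, q0, -, hq⟩ := hint n θ hθ
    obtain ⟨a, ha, e⟩ := hq l
    refine ⟨a / q, by positivity, (div_le_one (by positivity)).2 (by exact_mod_cast ha.le), ?_⟩
    rw [e]; push_cast; rfl
  obtain ⟨⟨S1, hS1, ⟨e1, he1, hL1⟩, hst⟩, -, -⟩ := h3 N K M cl d S hN hU hL (by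
    intro n θ hθ l
    obtain ⟨x, h0, h1, e⟩ := hreal n θ hθ l
    rw [e, norm_real, Real.norm_of_nonneg h0]
    exact h1.trans (hN1 n))
  obtain ⟨g, hg, hg1, hgd⟩ : ∃ g : ℝ, 0 < g ∧ g ≤ 1 ∧ 2 * g * d ≤ e1 / 4 := by
    refine ⟨min 1 (e1 / (8 * d + 8)), by positivity, min_le_left _ _, ?_⟩
    have : min 1 (e1 / (8 * d + 8)) * (8 * d + 8) ≤ e1 :=
      (le_div_iff₀ (by positivity)).1 (min_le_right _ _)
    have h0 : 0 < min 1 (e1 / (8 * d + 8)) := by positivity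
    nlinarith
  choose S2 hS2 hcard hbox using fun n => abs_box (S1 n)
    (Real.one_le_rpow (hN1 n) (by positivity : 0 ≤ 2 * g)) fun θ hθ => hreal n θ (hS1 n hθ)
  have hL2 : Large N S2 := by
    refine ⟨e1 / 2, by positivity, ?_⟩
    filter_upwards [hL1, abs_evp hN (by positivity : 0 < e1 / 4) (2 ^ d)] with n a1 a2
    have a3 : (2 * (N n : ℝ) ^ (2 * g)) ^ d ≤ (N n : ℝ) ^ (e1 / 2) := by
      rw [mul_pow, ← Real.rpow_mul_natCast (hNp n).le, show e1 / 2 = e1 / 4 + e1 / 4 by ring,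
        Real.rpow_add (hNp n)]
      exact mul_le_mul a2 (Real.rpow_le_rpow_of_exponent_le (hN1 n) hgd) (by positivity)
        (by positivity)
    have a4 : (N n : ℝ) ^ (e1 / 2) * (N n : ℝ) ^ (e1 / 2) ≤ (N n : ℝ) ^ (e1 / 2) * (S2 n).card := by
      rw [← Real.rpow_add (hNp n), add_halves]
      exact (a1.trans (hcard n)).trans (mul_le_mul_of_nonneg_right a3 (Nat.cast_nonneg _))
    exact le_of_mul_le_mul_left a4 (Real.rpow_pos_of_pos (hNp n) _)
  have : ∀ n, ∃ a : Fin d → ℂ, (∀ l, ∃ x : ℝ, |x| ≤ 1 ∧ a l = x) ∧ ∀ θ ∈ S2 n, a ∈ S2 n := by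
    intro n
    rcases (S2 n).eq_empty_or_nonempty with h | ⟨a, ha⟩
    · exact ⟨0, fun l => ⟨0, by simp, by simp⟩, by simp [h]⟩
    · refine ⟨a, fun l => ?_, fun _ _ => ha⟩
      obtain ⟨x, h0, h1, e⟩ := hreal n a (hS1 n (hS2 n ha)) l
      exact ⟨x, by rwa [abs_of_nonneg h0], e⟩
  choose a ha ha' using this
  have pw : ∀ t : ℝ, t ≤ 1 → ∃ R : M, ∀ n, R.1 n = (((N n : ℝ) ^ t : ℝ) : ℂ) := fun t ht =>
    ⟨⟨fun n => (((N n : ℝ) ^ t : ℝ) : ℂ), abs_mem hU (Eventually.of_forall fun n => by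
      rw [norm_real, Real.norm_of_nonneg (by positivity)]
      exact (Real.rpow_le_rpow_of_exponent_le (hN1 n) ht).trans_eq (Real.rpow_one _))⟩,
      fun _ => rfl⟩
  obtain ⟨R, hR⟩ := pw g hg1
  obtain ⟨R', hR'⟩ := pw (-g) (by linarith)
  have hQ : ∀ n (θ : Fin d → ℂ), ∃ q : ℕ, (0 < q ∧ q ≤ N n) ∧
      (θ ∈ S n → ∀ l, ∃ a : ℕ, θ l * q = a) := fun n θ => by
    by_cases h : θ ∈ S n
    · obtain ⟨q, q0, q1, hq⟩ := hint n θ h
      refine ⟨q, ⟨q0, q1⟩, fun _ l => ?_⟩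
      obtain ⟨a, -, e⟩ := hq l
      exact ⟨a, by rw [e, div_mul_cancel₀ _ (Nat.cast_ne_zero.2 q0.ne')]⟩
    · exact ⟨1, ⟨one_pos, hN0 n⟩, fun c => absurd c h⟩
  choose Q hQ hQ' using hQ
  have nρ : ∀ n, ‖R'.1 n * Q n (a n)‖ ≤ N n := fun n => by
    rw [norm_mul, hR', norm_real, Real.norm_of_nonneg (by positivity), norm_natCast]
    exact (mul_le_of_le_one_left (Nat.cast_nonneg _) (Real.rpow_le_one_of_one_le_of_nonpos (hN1 n)
      (by linarith))).trans (by exact_mod_cast (hQ n _).2)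
  let ρ : M := ⟨fun n => R'.1 n * Q n (a n), abs_mem hU (Eventually.of_forall nρ)⟩
  have hRR : ∀ n, R.1 n * R'.1 n = 1 := fun n => by
    rw [hR, hR', ← ofReal_mul, ← Real.rpow_add (hNp n)]; simp
  let α : Fin d → M := fun l => ⟨fun n => a n l, abs_mem hU (Eventually.of_forall fun n => by
    obtain ⟨x, h0, e⟩ := ha n l
    rw [e, norm_real]
    exact h0.trans (hN1 n))⟩
  have hsm : ∀ n, ∀ θ ∈ absAff α R S2 n, ∀ l, ‖θ l‖ ≤ (N n : ℝ) ^ (-g) := by
    intro n θ hθ l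
    obtain ⟨θ, h, rfl⟩ := Finset.mem_image.1 hθ
    rw [norm_mul, hR, norm_real, Real.norm_of_nonneg (by positivity)]
    refine (mul_le_mul_of_nonneg_right (hbox n θ h _ (ha' n θ h) l) (by positivity)).trans_eq ?_
    rw [← Real.rpow_neg (hNp n).le, ← Real.rpow_add (hNp n)]
    congr 1
    ring
  have hL3 : Large N (absAff α R S2) := by
    obtain ⟨ε, hε, h⟩ := hL2
    exact ⟨ε, hε, h.mono fun n hn => by rwa [abs_card_aff α hRR]⟩
  refine habs_geo h3 h5 hN hU (absAff α R S2) hL3 (abs_stab_aff α hRR (abs_stab_mono hS2 hst)) hg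
    hN0 hsm ρ (fun n => mul_ne_zero (right_ne_zero_of_mul_eq_one (hRR n))
      (Nat.cast_ne_zero.2 (hQ n _).1.ne')) nρ (fun n θ => Q n fun l => a n l + R'.1 n * θ l)
    (fun n θ => hQ n _) (fun n θ hθ l => ?_) fun k σ hp hk hσ => ?_
  · obtain ⟨θ, h, rfl⟩ := Finset.mem_image.1 hθ
    have e : (fun l => a n l + R'.1 n * ((θ l - (α l).1 n) * R.1 n)) = θ := by
      funext l
      change a n l + R'.1 n * ((θ l - a n l) * R.1 n) = θ l
      linear_combination (θ l - a n l) * hRR n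
    obtain ⟨z, hz⟩ := hQ' n θ (hS1 n (hS2 n h)) l
    obtain ⟨z', hz'⟩ := hQ' n _ (hS1 n (hS2 n (ha' n θ h))) l
    refine ⟨z * Q n (a n) - z' * Q n θ, ?_⟩
    change (θ l - a n l) * R.1 n * (R'.1 n * Q n (a n) *
      (Q n fun l => a n l + R'.1 n * ((θ l - (α l).1 n) * R.1 n) : ℕ)) = _
    rw [e]
    push_cast
    rw [← hz, ← hz']
    linear_combination (θ l - a n l) * Q n (a n) * Q n θ * hRR n
  have hnr : ∀ n, ‖2 * Real.pi * I * R'.1 n‖ = 2 * Real.pi * (N n : ℝ) ^ (-g) := fun n => by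
    rw [hR']
    simp [abs_of_pos Real.pi_pos, abs_of_pos (Real.rpow_pos_of_pos (hNp n) (-g))]
  have hnr' : ∀ᶠ n in hyperfilter ℕ, ‖2 * Real.pi * I * R'.1 n‖ ≤ (N n : ℝ) ^ (-g / 2) := by
    filter_upwards [abs_evp hN (half_pos hg) (2 * Real.pi)] with n h
    rw [hnr, show -g / 2 = g / 2 + -g by ring, Real.rpow_add (hNp n)]
    exact mul_le_mul_of_nonneg_right h (by positivity)
  let rr : M := ⟨fun n => 2 * Real.pi * I * R'.1 n, abs_mem hU (hnr'.mono fun n hn => hn.trans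
    ((Real.rpow_le_rpow_of_exponent_le (hN1 n) (by linarith)).trans_eq (Real.rpow_one _)))⟩
  have hr : ‖cl rr‖ < 1 := (hU.le rr _ hnr').trans_lt (Real.exp_lt_one_iff.2 (by linarith))
  have hr0 : cl rr ≠ 0 := abs_ne_zero hN hU rr (-g) (Eventually.of_forall fun n => by
    change _ ≤ ‖2 * Real.pi * I * R'.1 n‖
    rw [hnr]
    exact le_mul_of_one_le_left (by positivity) (by linarith [Real.pi_gt_three]))
  have : ∀ i, ∃ x : M, i ∈ I' → ∀ n, x.1 n = absE (c n) m (fun l => (α l).1 n) i := by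
    intro i
    by_cases hi : i ∈ I'
    · refine ⟨⟨fun n => absE (c n) m (fun l => (α l).1 n) i,
        abs_mem hU (Eventually.of_forall fun n => ?_)⟩, fun _ _ => rfl⟩
      choose x _ hx using ha n
      have e : 2 * Real.pi * I * ∑ l, (m i l : ℂ) * (α l).1 n =
          ((2 * Real.pi * ∑ l, (m i l : ℝ) * x l : ℝ) : ℂ) * I := by
        have : ∀ l, (α l).1 n = x l := hx
        simp only [this]
        push_cast
        ring
      rw [absE, e, norm_mul, norm_exp_ofReal_mul_I, mul_one]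
      exact (hc n i hi).trans (hN1 n)
    · exact ⟨0, fun h => absurd h hi⟩
  choose cs hcs using this
  have hη : ∀ η : Fin d → M, (∀ᶠ n in hyperfilter ℕ, (fun l => (η l).1 n) ∈ absAff α R S2 n) →
      (∀ l, ‖cl (η l)‖ ≤ 1) ∧
        ∀ᶠ n in hyperfilter ℕ, (fun l => (α l).1 n + R'.1 n * (η l).1 n) ∈ S n := fun η h =>
    ⟨fun l => (hU.le _ _ (h.mono fun n hn => hsm n _ hn l)).trans
      (Real.exp_le_one_iff.2 (by linarith)),
      h.mono fun n hn => hS1 n (hS2 n ((abs_mem_aff α hRR S2 n _).1 hn))⟩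
  obtain ⟨η₀, η₁, h0⟩ := abs_two_pts hN hU hL3 fun n θ hθ l => (hsm n θ hθ l).trans
    ((Real.rpow_le_rpow_of_exponent_le (hN1 n) (by linarith)).trans_eq (Real.rpow_one _))
  have h0' := h0.mono fun n hn => hn.1
  refine h4 K d k _ σ ι J I' (fun i => cl (cs i)) m κ (cl rr) _ (fun l => cl (η₀ l)) hUK hp hk hσ
    hr0 hr ?_ ⟨η₀, h0', fun _ => rfl⟩ fun u hu => ?_
  · rintro y hy
    refine ⟨?_, fun p hp => hp y hy, fun j => ?_⟩
    · obtain ⟨η, a1, a2⟩ := hy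
      exact fun l => a2 l ▸ (hη η a1).1 l
    · obtain ⟨η, a1, a2⟩ := hy
      obtain ⟨w, hw, hw'⟩ := abs_sum hN hU hexp c m α R' rr (fun _ => rfl) hr
        (I'.filter fun i => κ i = j) cs (fun i hi => hcs i (Finset.mem_filter.1 hi).1) η
        (hη η a1).1
      simp only [← a2]
      rw [← hw]
      refine abs_zero hU w fun t => ?_
      filter_upwards [(hη η a1).2, Nat.hyperfilter_le_atTop (eventually_ge_atTop ⌈-t⌉₊)]
        with n b1 b2
      have b3 := hs n _ b1 j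
      rw [← hw', ← le_div_iff₀ (by positivity), one_div] at b3
      refine b3.trans ?_
      rw [← neg_neg t, Real.rpow_neg (hNp n).le]
      refine inv_anti₀ (Real.rpow_pos_of_pos (hNp n) _) ?_
      refine (Real.rpow_le_rpow_of_exponent_le (hN1 n)
        ((Nat.le_ceil _).trans (Nat.cast_le.2 b2))).trans ?_
      rw [Real.rpow_natCast]
      exact pow_le_pow_left₀ (hNp n).le (by linarith) n
  · by_contra hz
    push Not at hz
    obtain ⟨Q, hQ⟩ := hb u hu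
    have hv : (fun n => (N n : ℂ) + 1) ∈ M := (hU.mem _).2 ⟨2, by
      filter_upwards [abs_ev hN 2] with n hn
      refine (norm_add_le _ _).trans ?_
      rw [norm_natCast, norm_one]
      nlinarith⟩
    have key : ∀ q ∈ Q, ∀ᶠ n in hyperfilter ℕ,
        ‖∑ i ∈ I' with κ i = q.1 ∧ ∑ l, u l * m i l = q.2,
          absE (c n) m (fun l => (α l).1 n + R'.1 n * (η₀ l).1 n) i‖ * ((N n : ℝ) + 1) ^ A' ≤
          (N n : ℝ)⁻¹ := by
      intro q _
      obtain ⟨w, hw, hw'⟩ := abs_sum hN hU hexp c m α R' rr (fun _ => rfl) hr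
        (I'.filter fun i => κ i = q.1 ∧ ∑ l, u l * m i l = q.2) cs
        (fun i hi => hcs i (Finset.mem_filter.1 hi).1) η₀ (hη η₀ h0').1
      refine (abs_of_zero hU (w * ⟨_, hv⟩ ^ A') (by rw [map_mul, hw, hz, zero_mul]) (-1)).mono
        fun n hn => ?_
      rw [← hw', ← Real.rpow_neg_one]
      refine le_trans (le_of_eq ?_) hn
      change _ = ‖w.1 n * ((N n : ℂ) + 1) ^ A'‖
      rw [norm_mul, norm_pow, ← Nat.cast_succ, ← Nat.cast_succ, norm_natCast]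
    obtain ⟨n, b1, b2, b3⟩ := (((eventually_all_finset Q).2 key).and
      ((hη η₀ h0').2.and (abs_ev hN (Q.card + 1)))).exists
    have b4 := hQ n _ b2
    rw [Finset.sum_mul] at b4
    have b5 := b4.trans (Finset.sum_le_card_nsmul _ _ _ b1)
    rw [nsmul_eq_mul, ← div_eq_mul_inv, le_div_iff₀ (hNp n)] at b5
    linarith

theorem hAbs (h1 : SUF) (h2 : SUF2) (h3 : SStab) (h4 : SLoc) (h5 : SAux) : HAbs := by
  classical
  intro Λ _ _ _ S ε A' hε
  by_contra hc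
  push Not at hc
  choose c N X hc hN0 hX hcard using fun n => hc n n
  let b := Module.finBasis ℤ Λ
  have : ∀ n χ, ∃ (q : ℕ) (a : Fin (Module.finrank ℤ Λ) → ℕ), χ ∈ X n → (0 < q ∧ q ≤ N n) ∧
      (∀ l, a l < q) ∧
      ∀ μ, χ μ = exp (2 * Real.pi * I * ∑ l, (b.repr μ l : ℂ) * ((a l : ℂ) / q)) := by
    intro n χ
    by_cases h : χ ∈ X n
    · obtain ⟨q, q0, q1, q2⟩ := (hX n χ h).1
      obtain ⟨a, ha⟩ := abs_coord b q0 χ q2
      exact ⟨q, a, fun _ => ⟨⟨q0, q1⟩, ha⟩⟩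
    · exact ⟨0, 0, fun h' => absurd h' h⟩
  choose q a ha using this
  have hinj : ∀ n, Set.InjOn (fun χ l => (a n χ l : ℂ) / q n χ) (X n) := by
    intro n χ h χ' h' e
    ext μ
    rw [(ha n χ h).2.2, (ha n χ' h').2.2]
    have : ∀ l, (a n χ l : ℂ) / q n χ = (a n χ' l : ℂ) / q n χ' := congrFun e
    simp only [this]
  have hN1 : ∀ n, (1 : ℝ) ≤ (N n : ℝ) ^ ε := fun n =>
    Real.one_le_rpow (by exact_mod_cast hN0 n) hε.le
  have hlt : ∀ n, n < (N n + 1) ^ (Module.finrank ℤ Λ + 1) := by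
    intro n
    have e1 : (X n).card ≤ (Finset.range (N n + 1) ×ˢ Fintype.piFinset
        fun _ : Fin (Module.finrank ℤ Λ) => Finset.range (N n + 1)).card := by
      refine Finset.card_le_card_of_injOn (fun χ => (q n χ, a n χ)) (fun χ h => ?_)
        fun χ h χ' h' e => ?_
      · have := (ha n χ h).1.2
        refine Finset.mem_coe.2 (Finset.mem_product.2 ⟨Finset.mem_range.2 (Nat.lt_succ_of_le this),
          Fintype.mem_piFinset.2 fun l => Finset.mem_range.2 ?_⟩)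
        have := (ha n χ h).2.1 l
        change a n χ l < _
        omega
      · have e1 : q n χ = q n χ' := congrArg Prod.fst e
        have e2 : a n χ = a n χ' := congrArg Prod.snd e
        exact hinj n h h' (by simp only [e1, e2])
    have e2 : (n : ℝ) < (X n).card :=
      (le_mul_of_one_le_right (Nat.cast_nonneg _) (hN1 n)).trans_lt (hcard n)
    refine lt_of_lt_of_le (by exact_mod_cast e2) (e1.trans_eq ?_)
    simp [pow_succ']
  have hN : Tendsto N atTop atTop := by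
    refine tendsto_atTop.2 fun B => (eventually_ge_atTop ((B + 1) ^ (Module.finrank ℤ Λ + 1))).mono
      fun n hn => ?_
    have := lt_of_pow_lt_pow_left₀ _ (Nat.zero_le _) (hn.trans_lt (hlt n))
    omega
  have hcs : ∀ n, ∀ χ ∈ X n, ∀ i, absE (c n) (fun i l => b.repr (S.m i) l)
      (fun l => (a n χ l : ℂ) / q n χ) i = algebraMap ℂ ℂ (c n i) * χ (S.m i) := by
    intro n χ h i
    rw [(ha n χ h).2.2]
    rfl
  refine habs_core h1 h2 h3 h4 h5 S.I (fun i l => b.repr (S.m i) l) S.κ c N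
    (fun n => (X n).image fun χ l => (a n χ l : ℂ) / q n χ) A' hN hN0 ⟨ε, hε, ?_⟩ hc ?_ ?_ ?_
  · filter_upwards [Nat.hyperfilter_le_atTop (eventually_ge_atTop 1)] with n hn
    rw [Finset.card_image_of_injOn (hinj n)]
    refine le_trans (le_mul_of_one_le_left (by positivity) ?_) (hcard n).le
    exact_mod_cast hn
  · intro n θ hθ
    obtain ⟨χ, h, rfl⟩ := Finset.mem_image.1 hθ
    exact ⟨_, (ha n χ h).1.1, (ha n χ h).1.2, fun l => ⟨_, (ha n χ h).2.1 l, rfl⟩⟩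
  · intro n θ hθ j
    obtain ⟨χ, h, rfl⟩ := Finset.mem_image.1 hθ
    refine le_trans (mul_le_mul_of_nonneg_right ?_ (by positivity)) (hX n χ h).2.1
    simp only [hcs n χ h]
    by_cases hj : j ∈ S.I.image S.κ
    · exact Finset.single_le_sum (f := fun j => ‖(S.wc (c n)).cs χ j‖)
        (fun _ _ => norm_nonneg _) hj
    · rw [Finset.filter_eq_empty_iff.2 fun i hi e => hj (Finset.mem_image.2 ⟨i, hi, e⟩),
        Finset.sum_empty, norm_zero]
      exact Finset.sum_nonneg fun _ _ => norm_nonneg _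
  · intro u hu
    have hu' : b.constr ℤ u ≠ 0 := fun h => hu (funext fun l => by
      rw [← b.constr_basis ℤ u l, h]; rfl)
    refine ⟨@Finset.image _ _ (fun _ _ => Classical.propDecidable _)
      (fun i => (S.κ i, b.constr ℤ u (S.m i))) S.I, fun n θ hθ => ?_⟩
    obtain ⟨χ, h, rfl⟩ := Finset.mem_image.1 hθ
    refine ((hX n χ h).2.2 _ hu').trans (le_of_eq ?_)
    congr 1
    refine Finset.sum_congr rfl fun q _ => ?_
    congr 1
    simp only [hcs n χ h]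
    refine Finset.sum_congr ?_ fun _ _ => rfl
    refine Finset.ext fun i : S.ι => ?_
    refine (@Finset.mem_filter _ _ (fun _ => Classical.propDecidable _) _ _).trans
      (Iff.trans ?_ Finset.mem_filter.symm)
    simp only [Sys.ref, Sys.re, Sys.wc, Prod.ext_iff,
      Module.Basis.constr_apply_fintype, Module.Basis.equivFun_apply, smul_eq_mul, mul_comm]

end Pool.Agent.MP_c1891a_nt.G43
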