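import Pool.Agent.MP_c1891a_nt.G43.All
import Pool.Agent.MP_c1891a_nt.G43.HAbs
import Pool.Agent.MP_c1891a_nt.G43.HRel
import Pool.Agent.MP_c1891a_nt.G45.Link

/-
All dimensions: the unit values lie in few orbits of bounded order.
-/

namespace Pool.Agent.MP_c1891a_nt.G43

open Finset Filter Topology Module H43

theorem sparse_gap {δ ε : ℝ} (hδ : 0 < δ) (h1 : δ ≤ 1) (hε : 0 < ε) (A : ℕ) :
    ∃ X₀ : ℕ, ∀ X : ℕ, X₀ ≤ X → ∀ N : ℕ, (X : ℝ) ^ ε ≤ N →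
      Real.exp (-(N : ℝ) ^ (1 - δ / 2)) * ((X : ℝ) + 1) ^ A < Real.exp (-(N : ℝ) ^ (1 - δ)) := by
  have t0 : 0 < ε * δ / 4 := by positivity
  have ht : Tendsto (fun X : ℕ => (X : ℝ) ^ (ε * δ / 4)) atTop atTop :=
    (tendsto_rpow_atTop t0).comp tendsto_natCast_atTop_atTop
  obtain ⟨X₀, hX₀⟩ := eventually_atTop.1 (ht.eventually_gt_atTop (A * (1 + 4 / (ε * δ)) + 1))
  refine ⟨X₀ + 1, fun X hX N hN => ?_⟩
  have X1 : (1 : ℝ) ≤ X := by exact_mod_cast (by omega : 1 ≤ X)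
  have X0 : (0 : ℝ) < X := by linarith
  have N1 : (1 : ℝ) ≤ N := (Real.one_le_rpow X1 hε.le).trans hN
  have N0 : (0 : ℝ) < N := by linarith
  obtain ⟨y, hy⟩ : ∃ y, y = (X : ℝ) ^ (ε * δ / 4) := ⟨_, rfl⟩
  have y1 : 1 ≤ y := hy ▸ Real.one_le_rpow X1 t0.le
  have y2 := hX₀ X (by omega)
  rw [← hy] at y2
  have a1 : y * y ≤ (N : ℝ) ^ (δ / 2) := by
    rw [hy, ← Real.rpow_add X0, show ε * δ / 4 + ε * δ / 4 = ε * (δ / 2) by ring,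
      Real.rpow_mul X0.le]
    exact Real.rpow_le_rpow (by positivity) hN (by positivity)
  have a2 : Real.log ((X : ℝ) + 1) ≤ (1 + 4 / (ε * δ)) * y := by
    have b1 : Real.log ((X : ℝ) + 1) ≤ Real.log 2 + Real.log X := by
      rw [← Real.log_mul two_ne_zero X0.ne']
      exact Real.log_le_log (by positivity) (by linarith)
    have b2 := Real.log_le_rpow_div X0.le t0
    rw [← hy] at b2
    have b3 : y / (ε * δ / 4) = 4 / (ε * δ) * y := by field_simp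
    have := Real.log_two_lt_d9
    nlinarith
  have a3 : 1 ≤ (N : ℝ) ^ (1 - δ) := Real.one_le_rpow N1 (by linarith)
  have a4 : (N : ℝ) ^ (1 - δ / 2) = (N : ℝ) ^ (1 - δ) * (N : ℝ) ^ (δ / 2) := by
    rw [← Real.rpow_add N0]; congr 1; ring
  rw [← Real.exp_log (show (0 : ℝ) < (X : ℝ) + 1 by positivity), ← Real.exp_nat_mul,
    ← Real.exp_add, Real.exp_lt_exp, a4]
  have a5 := mul_le_mul_of_nonneg_left a2 (Nat.cast_nonneg (α := ℝ) A)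
  have a6 : (A * (1 + 4 / (ε * δ)) + 1) * y < y * y := mul_lt_mul_of_pos_right y2 (by linarith)
  have a7 : 0 ≤ (N : ℝ) ^ (δ / 2) - 1 := by nlinarith
  nlinarith [mul_le_mul_of_nonneg_right a3 a7]

variable {Λ : Type} [AddCommGroup Λ] [Module.Free ℤ Λ] [Module.Finite ℤ Λ]

theorem sparse_all (K : ℕ) (Y : Finset (AddChar Λ ℂ))
    (hY : ∀ ψ ∈ Y, IsOfFinOrder ψ ∧ orderOf ψ ≤ K) : Y.card ≤ K ^ (finrank ℤ Λ + 1) := by
  classical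
  choose S s1 s2 using fun s => link_fin (Module.finBasis ℤ Λ) s fun _ => 1
  refine (card_le_card (t := (Icc 1 K).biUnion S) fun ψ hψ => ?_).trans
    ((card_biUnion_le_card_mul _ _ (K ^ finrank ℤ Λ) fun s hs => (s1 s).trans
      (Nat.pow_le_pow_left (mem_Icc.1 hs).2 _)).trans (by simp [pow_succ']))
  obtain ⟨p, q⟩ := hY ψ hψ
  exact mem_biUnion.2 ⟨_, mem_Icc.2 ⟨p.orderOf_pos, q⟩,
    s2 _ ψ p.orderOf_pos (char_pow_one (pow_orderOf_eq_one ψ))⟩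

/-- there are few torsion points with a very small value. -/
theorem sparse_count (S : Sys Λ) (hI : S.Int) (hF : S.Full) :
    ∃ (δ : ℝ) (T : Finset Λ), 0 < δ ∧ ∀ ε : ℝ, 0 < ε → ∃ C : ℝ, ∀ (X : ℕ)
      (Y : Finset (AddChar Λ ℂ)), (∀ ψ ∈ Y, (IsOfFinOrder ψ ∧ NoRel T ψ ∧
        S.ρ ψ ≤ Real.exp (-(orderOf ψ : ℝ) ^ (1 - δ))) ∧ orderOf ψ ≤ X) →
      (Y.card : ℝ) ≤ C * (X : ℝ) ^ ε := by
  classical
  obtain ⟨δ, T, hδ, h1, hT⟩ := PairN_ref sSat allExcl S hI hF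
  refine ⟨δ / 2, T, half_pos hδ, fun ε hε => ?_⟩
  obtain ⟨A, C, hA⟩ := hRel (hAbs sUF sUF2 sStab (sLoc sTate sTMul sTPt sTDer
    (sNorm sShear sDivT sTMul) sExp sDerExt sInj (sKO allRos)) sAux) sSat Λ S ε hε
  have e0 : 0 < ε / (finrank ℤ Λ + 1 : ℕ) := by positivity
  obtain ⟨X₀, hX₀⟩ := sparse_gap hδ h1 e0 A
  refine ⟨C + 1 + X₀ ^ (finrank ℤ Λ + 1), fun X Y hY => ?_⟩
  rcases Y.eq_empty_or_nonempty with rfl | ⟨ψ₀, h₀⟩
  · rw [card_empty, Nat.cast_zero]; positivity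
  have X0 : 0 < X := (hY ψ₀ h₀).1.1.orderOf_pos.trans_le (hY ψ₀ h₀).2
  have X1 : 1 ≤ (X : ℝ) ^ ε := Real.one_le_rpow (by exact_mod_cast X0) hε.le
  have p0 : (0 : ℝ) ≤ (X₀ : ℝ) ^ (finrank ℤ Λ + 1) := by positivity
  have c0 : (0 : ℝ) ≤ C := Nat.cast_nonneg _
  rcases le_total X X₀ with hX | hX
  · have := sparse_all X₀ Y fun ψ hψ => ⟨(hY ψ hψ).1.1, (hY ψ hψ).2.trans hX⟩
    have : (Y.card : ℝ) ≤ (X₀ : ℝ) ^ (finrank ℤ Λ + 1) := by exact_mod_cast this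
    nlinarith
  have b1 := hA S.c X (Y.filter fun ψ => (X : ℝ) ^ (ε / (finrank ℤ Λ + 1 : ℕ)) ≤ orderOf ψ) X0
    fun ψ hψ => by
      obtain ⟨p1, p2⟩ := mem_filter.1 hψ
      obtain ⟨⟨q1, q2, q4⟩, q3⟩ := hY ψ p1
      refine ⟨⟨_, q1.orderOf_pos, q3, pow_orderOf_eq_one ψ⟩, fun u hu => ?_⟩
      exact ((mul_le_mul_of_nonneg_right q4 (by positivity)).trans_lt
        (hX₀ X hX _ p2)).trans_le (hT u hu ψ q1 q2 _ le_rfl)
  have b2 := sparse_all ⌊(X : ℝ) ^ (ε / (finrank ℤ Λ + 1 : ℕ))⌋₊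
    (Y.filter fun ψ => ¬ (X : ℝ) ^ (ε / (finrank ℤ Λ + 1 : ℕ)) ≤ orderOf ψ) fun ψ hψ =>
      ⟨(hY ψ (mem_filter.1 hψ).1).1.1, Nat.le_floor (not_le.1 (mem_filter.1 hψ).2).le⟩
  have b3 := (Nat.cast_le (α := ℝ)).2 b2
  rw [Nat.cast_pow] at b3
  have b4 := b3.trans (pow_le_pow_left₀ (Nat.cast_nonneg _) (Nat.floor_le (by positivity)) _)
  rw [← Real.rpow_mul_natCast (Nat.cast_nonneg X), div_mul_cancel₀ _ (by positivity)] at b4
  rw [← card_filter_add_card_filter_not (s := Y)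
    fun ψ => (X : ℝ) ^ (ε / (finrank ℤ Λ + 1 : ℕ)) ≤ orderOf ψ]
  push_cast at b1 b4 ⊢
  nlinarith

theorem allCoreS : SCoreS := by
  intro Λ ι _ _ _ I c m h2 hc hm hu hF
  classical
  obtain ⟨K, _, _, ι₀, c', hc'⟩ := num_field I c fun i hi =>
    ((hc i hi).1.tower_top (A := ℚ)).isAlgebraic
  have ce : ∀ χ : AddChar Λ ℂ, evN I (fun i => ι₀ (c' i)) m χ = evN I c m χ := fun χ =>
    sum_congr rfl fun i hi => congrArg (· * _) (hc' i hi)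
  have ci : ∀ i ∈ I, IsIntegral ℤ (c' i) ∧ c' i ≠ 0 := fun i hi =>
    ⟨(int_map ι₀).1 (hc' i hi ▸ (hc i hi).1), fun e => (hc i hi).2 (by rw [← hc' i hi, e, map_zero])⟩
  have zz : ∀ (F J : Type) [Field F] [Algebra ℂ F] (κ : ι → J) (x : AddChar Λ F),
      ((poly I (fun i => ι₀ (c' i)) m).re κ).Zero x → ((poly I c m).re κ).Zero x :=
    fun F J _ _ κ x h j => by
      rw [← h j]
      exact sum_congr rfl fun i hi => by
        have := hc' i (mem_filter.1 hi).1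
        simp only [this]
  obtain ⟨I', z, -, hR, hz⟩ := sNormN Λ ι K ι₀ I c' m (fun i hi => (ci i hi).1)
    ⟨fun F _ _ x hx => hF.1 F x (zz F _ _ x hx), fun u h F _ _ x hx => hF.2 u h F x (zz F _ _ x hx)⟩
  obtain ⟨δ, T₀, hδ, hP⟩ := sparse_count _ (fun μ _ => ⟨z μ, rfl⟩) hR
  obtain ⟨T₁, hT₁⟩ := core_spk sPigN sRepC sRep1 (sPosN (sChain sSat (sExt sSat)) sFrob2 sMann)
    sDefN allMass (sNz sMann) (sEmb sGal) sNormP ι₀ h2 ci hm hu hR hz hδ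
  refine ⟨T₀ ∪ T₁, _, hP, fun χ f u t => ?_⟩
  obtain ⟨j, j1, j2⟩ := hT₁ χ f (t.mono subset_union_right) (ce χ ▸ u)
  have j3 := (mem_filter.1 j1).2
  exact ⟨j, j3, f.pow, (t.mono subset_union_left).pow j3, by rwa [j3.symm.orderOf_pow]⟩

end Pool.Agent.MP_c1891a_nt.G43
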