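import Pool.Agent.MP_c1891a_nt.G43.Fin
import Pool.Agent.MP_c1891a_nt.G43.Sparse
import Pool.Agent.MP_c1891a_nt.G83.RedP

/-
All dimensions: the quotient torus in coordinates.
-/

namespace Pool.Agent.MP_c1891a_nt.G43

open Finset Module H43

theorem mat_data {d : ℕ} (L : Submodule ℤ (Fin d → ℤ)) (hL : Sat L) :
    ∃ (A : Matrix (Fin (finrank ℤ L)) (Fin d) ℤ) (A' : Matrix (Fin d) (Fin (finrank ℤ L)) ℤ)
      (H : AddChar L ℂ →* (Fin (finrank ℤ L) → ℂ)), A * A' = 1 ∧ Function.Injective H ∧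
      ∀ (x : Fin d → ℂ) (hx : ∀ i, x i ≠ 0) (y : Fin (finrank ℤ L) → ℂ),
        (∀ k, y k = ∏ i, x i ^ A k i) → y = H (rs L (chr x hx)) := by
  classical
  let b := Module.finBasis ℤ L
  have := ((sSat _ Unit ∅ fun _ => (0 : Fin d → ℤ)).2 L hL).1
  obtain ⟨s, hs⟩ := Module.projective_lifting_property L.mkQ LinearMap.id L.mkQ_surjective
  let p : (Fin d → ℤ) →ₗ[ℤ] L := (LinearMap.id - s ∘ₗ L.mkQ).codRestrict L fun a => by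
    rw [← Submodule.Quotient.mk_eq_zero, ← Submodule.mkQ_apply, LinearMap.sub_apply, map_sub]
    exact sub_eq_zero.2 (LinearMap.congr_fun hs (L.mkQ a)).symm
  have hp : ∀ a : L, p a = a := fun a => Subtype.ext (by
    change a.1 - s (L.mkQ a.1) = a.1
    rw [Submodule.mkQ_apply, (Submodule.Quotient.mk_eq_zero L).2 a.2, map_zero, sub_zero])
  refine ⟨fun k i => (b k).1 i, fun i k => b.repr (p (Pi.single i 1)) k,
    ⟨⟨fun ψ k => ψ (b k), rfl⟩, fun _ _ => rfl⟩, ?_, fun ψ ψ' h => link_ext b (congrFun h),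
    fun x hx y hy => funext hy⟩
  ext k k'
  have e : (b k).1 = ∑ i, (b k).1 i • (Pi.single i 1 : Fin d → ℤ) := by
    ext j
    simp [Pi.single_apply]
  have := congrArg (fun a => b.repr a k') (hp (b k))
  rw [e, map_sum] at this
  simp only [map_smul, map_sum, Finsupp.finsetSum_apply, Finsupp.smul_apply, smul_eq_mul,
    b.repr_self] at this
  rw [Matrix.mul_apply, this, Matrix.one_apply, Finsupp.single_apply]

theorem matSp {d : ℕ} {P : LN d} (ha : ∀ μ, IsAlgebraic ℚ (P.coeff μ))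
    (hP : ∀ B : ℕ, ∃ x : Fin d → ℂ, (∀ i, x i ≠ 0) ∧ evX P x = 0 ∧
      ¬ ∃ a : Fin d → ℤ, a ≠ 0 ∧ (∀ i, |a i| ≤ B) ∧ ∏ i, x i ^ a i = 1) :
    ∃ (r B : ℕ) (A : Matrix (Fin r) (Fin d) ℤ) (A' : Matrix (Fin d) (Fin r) ℤ)
      (S : Set (Fin r → ℂ)), A * A' = 1 ∧ min 2 d ≤ r ∧
      (∀ Q : LN d, Irreducible Q → Q ∣ P → Set.finrank ℤ
        {a | ∃ μ ∈ Q.coeff.support, ∃ ν ∈ Q.coeff.support, a = μ - ν} ≤ r) ∧
      (∀ ε : ℝ, 0 < ε → ∃ C : ℝ, ∀ (X : ℕ) (Y : Finset (Fin r → ℂ)),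
        (∀ y ∈ Y, y ∈ S ∧ orderOf y ≤ X) → (Y.card : ℝ) ≤ C * (X : ℝ) ^ ε) ∧
      ∀ (x : Fin d → ℂ) (y : Fin r → ℂ), (∀ i, ∃ n : ℕ, 0 < n ∧ x i ^ n = 1) →
        (∀ k, y k = ∏ i, x i ^ A k i) →
        evX P x ≠ 0 ∧ IsIntegral ℤ (evX P x) ∧ IsIntegral ℤ (evX P x)⁻¹ →
        (∃ a : Fin d → ℤ, a ≠ 0 ∧ (∀ i, |a i| ≤ B) ∧ ∏ i, x i ^ a i = 1) ∨
        ∃ j : ℕ, j.Coprime (orderOf y) ∧ y ^ j ∈ S := by
  classical
  obtain ⟨L, l1, l2, l3, h⟩ :=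
    redPr Sparse allCoreS sFacN (sIrrL (sIrr sInj)) (sRk1 sFacN) d P ha (fin_big hP)
  obtain ⟨A, A', H, m1, hinj, m2⟩ := mat_data L l1
  obtain ⟨T, hT⟩ | ⟨-, U, ⟨T, S, s1, s2⟩, u2⟩ := h
  · obtain ⟨B, hB⟩ := fin_relT T
    refine ⟨_, B, A, A', ∅, m1, l2, l3, fun ε _ => ⟨0, fun X Y hY => ?_⟩,
      fun x y hx _ hu => Or.inl (hB _ (hT _ (fin_tor hx) hu))⟩
    rw [eq_empty_of_forall_notMem fun ψ hψ => (hY ψ hψ).1]
    simp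
  · obtain ⟨B, hB⟩ := fin_relL T
    refine ⟨_, B, A, A', H '' S, m1, l2, l3, fun ε hε => ?_, fun x y hx hy hu => ?_⟩
    · obtain ⟨C, hC⟩ := s1 ε hε
      refine ⟨C, fun X Y hY => ?_⟩
      have e : (Y.preimage H hinj.injOn).card = Y.card := by
        rw [card_preimage, filter_true_of_mem]
        exact fun ψ hψ => Set.image_subset_range _ _ (hY ψ hψ).1
      rw [← e]
      refine hC X _ fun ψ hψ => ?_
      obtain ⟨a, b⟩ := hY _ (mem_preimage.1 hψ)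
      exact ⟨hinj.mem_set_image.1 a, orderOf_injective H hinj ψ ▸ b⟩
    · obtain rfl := m2 x (fin_ne hx) y hy
      by_cases hn : NoRel T (rs L (chr x (fin_ne hx)))
      · have t := fin_tor hx
        obtain ⟨j, j1, j2⟩ := s2 (rs L (chr x (fin_ne hx)))
          (fin_of_pow t.orderOf_pos (orderOf_dvd_iff_pow_eq_one.1 (rs_order L _))) (u2 _ t hu) hn
        exact Or.inr ⟨j, (orderOf_injective H hinj _).symm ▸ j1, _, j2, H.map_pow _ _⟩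
      · exact Or.inl (hB _ hn)

theorem matOrb {d : ℕ} {P : LN d} (ha : ∀ μ, IsAlgebraic ℚ (P.coeff μ))
    (hP : ∀ B : ℕ, ∃ x : Fin d → ℂ, (∀ i, x i ≠ 0) ∧ evX P x = 0 ∧
      ¬ ∃ a : Fin d → ℤ, a ≠ 0 ∧ (∀ i, |a i| ≤ B) ∧ ∏ i, x i ^ a i = 1) :
    ∃ (r e C B : ℕ) (A : Matrix (Fin r) (Fin d) ℤ) (A' : Matrix (Fin d) (Fin r) ℤ),
      A * A' = 1 ∧ min 2 d ≤ r ∧
      (∀ Q : LN d, Irreducible Q → Q ∣ P → Set.finrank ℤ
        {a | ∃ μ ∈ Q.coeff.support, ∃ ν ∈ Q.coeff.support, a = μ - ν} ≤ r) ∧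
      ∀ M : ℕ, 0 < M → ∃ S : Finset (Fin r → ℂ), S.card ≤ C ∧
        ∀ (x : Fin d → ℂ) (y : Fin r → ℂ), (∀ i, ∃ n : ℕ, 0 < n ∧ x i ^ n = 1) →
          (∀ k, y k = ∏ i, x i ^ A k i) → y ^ M = 1 → M ^ e ≤ orderOf y ^ (e + 1) →
          evX P x ≠ 0 ∧ IsIntegral ℤ (evX P x) ∧ IsIntegral ℤ (evX P x)⁻¹ →
          (∃ a : Fin d → ℤ, a ≠ 0 ∧ (∀ i, |a i| ≤ B) ∧ ∏ i, x i ^ a i = 1) ∨
          ∃ j : ℕ, j.Coprime (orderOf y) ∧ y ^ j ∈ S := by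
  classical
  obtain ⟨L, l1, l2, l3, h⟩ := allRedN d P ha (fin_big hP)
  obtain ⟨A, A', H, m1, hinj, m2⟩ := mat_data L l1
  obtain ⟨T, hT⟩ | ⟨-, U, u1, u2⟩ := h
  · obtain ⟨B, hB⟩ := fin_relT T
    exact ⟨_, 0, 0, B, A, A', m1, l2, l3, fun M _ => ⟨∅, le_rfl, fun x y hx _ _ _ hu =>
      Or.inl (hB _ (hT _ (fin_tor hx) hu))⟩⟩
  · obtain ⟨e, C, T, e1⟩ := (sLink L U u1).1
    obtain ⟨B, hB⟩ := fin_relL T
    refine ⟨_, e, C, B, A, A', m1, l2, l3, fun M hM => ?_⟩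
    obtain ⟨S, s1, s2⟩ := e1 M hM
    refine ⟨S.image H, card_image_le.trans s1, fun x y hx hy h1 h2 hu => ?_⟩
    obtain rfl := m2 x (fin_ne hx) y hy
    by_cases hn : NoRel T (rs L (chr x (fin_ne hx)))
    · have o := orderOf_injective H hinj (rs L (chr x (fin_ne hx)))
      obtain ⟨j, j1, j2⟩ := s2 (rs L (chr x (fin_ne hx)))
        (hinj ((H.map_pow _ _).trans (h1.trans H.map_one.symm))) (o ▸ h2)
        (u2 _ (fin_tor hx) hu) hn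
      exact Or.inr ⟨j, o.symm ▸ j1, mem_image.2 ⟨_, j2, H.map_pow _ _⟩⟩
    · exact Or.inl (hB _ hn)

end Pool.Agent.MP_c1891a_nt.G43
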