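import Pool.Agent.MP_c1891a_nt.G43.SpecA

/-
All dimensions: systems of Laurent polynomials on a lattice.
-/

namespace Pool.Agent.MP_c1891a_nt.G43

open Finset Filter Module Polynomial H43

/-- a finite system of Laurent polynomials: the terms `c i * x (m i)` are grouped by `κ`. -/
structure Sys (Λ : Type) where
  (ι J : Type)
  I : Finset ι
  c : ι → ℂ
  m : ι → Λ
  κ : ι → J

/-- `n` values of `x` are algebraically independent. -/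
def TD {Λ F : Type} [AddCommGroup Λ] [Field F] [Algebra ℂ F] (x : AddChar Λ F) (n : ℕ) : Prop :=
  ∃ l : Fin n → Λ, AlgebraicIndependent ℂ fun k => x (l k)

/-- no relation in `T`. -/
def NoRel {Λ : Type} [AddCommGroup Λ] (T : Finset Λ) (χ : AddChar Λ ℂ) : Prop :=
  ∀ l ∈ T, l ≠ 0 → χ l ≠ 1

/-- the restriction of a character. -/
def rs {Λ F : Type} [AddCommGroup Λ] [Field F] (W : Submodule ℤ Λ) (x : AddChar Λ F) :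
    AddChar W F := x.compAddMonoidHom W.subtype.toAddMonoidHom

/-- a saturated sublattice. -/
def Sat {Λ : Type} [AddCommGroup Λ] (W : Submodule ℤ Λ) : Prop :=
  ∀ (k : ℤ) (l : Λ), k ≠ 0 → k • l ∈ W → l ∈ W

namespace Sys

variable {Λ : Type} [AddCommGroup Λ] (S : Sys Λ)

open Classical in
/-- the sum of a class. -/
noncomputable def cs {F : Type} [Field F] [Algebra ℂ F] (x : AddChar Λ F) (j : S.J) : F :=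
  ∑ i ∈ S.I with S.κ i = j, algebraMap ℂ F (S.c i) * x (S.m i)

open Classical in
/-- the size of the system at a point. -/
noncomputable def ρ (χ : AddChar Λ ℂ) : ℝ := ∑ j ∈ S.I.image S.κ, ‖S.cs χ j‖

/-- a common zero. -/
def Zero {F : Type} [Field F] [Algebra ℂ F] (x : AddChar Λ F) : Prop := ∀ j, S.cs x j = 0

/-- other classes. -/
@[reducible] def re {J : Type} (κ : S.ι → J) : Sys Λ := ⟨S.ι, J, S.I, S.c, S.m, κ⟩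

/-- other coefficients. -/
@[reducible] def wc (c : S.ι → ℂ) : Sys Λ := ⟨S.ι, S.J, S.I, c, S.m, S.κ⟩

/-- the classes are refined by a function of the exponent. -/
@[reducible] def ref {X : Type} (u : Λ → X) : Sys Λ := S.re fun i => (S.κ i, u (S.m i))

/-- the system refined modulo `W`, read on `W`. -/
@[reducible] noncomputable def res (W : Submodule ℤ Λ) : Sys W :=
  ⟨S.ι, S.J × (Λ ⧸ W), S.I, S.c, fun i => ⟨S.m i - (W.mkQ (S.m i)).out, by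
    rw [← Submodule.Quotient.eq, Submodule.Quotient.mk_out]; rfl⟩,
    fun i => (S.κ i, W.mkQ (S.m i))⟩

/-- the system read on the quotient. -/
@[reducible] def quo (W : Submodule ℤ Λ) : Sys (Λ ⧸ W) := ⟨S.ι, S.J, S.I, S.c, fun i => W.mkQ (S.m i), S.κ⟩

/-- two copies in separate variables. -/
@[reducible] def pair : Sys (Λ × Λ) :=
  ⟨S.ι ⊕ S.ι, S.J ⊕ S.J, S.I.disjSum S.I, Sum.elim S.c S.c,
    Sum.elim (fun i => (S.m i, 0)) (fun i => (0, S.m i)), Sum.map S.κ S.κ⟩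

/-- integer coefficients. -/
def Int : Prop := ∀ i ∈ S.I, ∃ z : ℤ, S.c i = z

/-- the zero set has codimension at least two. -/
def Good : Prop :=
  ∀ (F : Type) [Field F] [Algebra ℂ F] (x : AddChar Λ F), S.Zero x → ∀ n, TD x n →
    n + 2 ≤ finrank ℤ Λ

/-- the zero set is proper and no component of codimension one is a cylinder. -/
def Full : Prop :=
  (∀ (F : Type) [Field F] [Algebra ℂ F] (x : AddChar Λ F), S.Zero x → ∀ n, TD x n →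
    n + 1 ≤ finrank ℤ Λ) ∧ ∀ u : Λ →ₗ[ℤ] ℤ, u ≠ 0 → (S.ref u).Good

/-- the logarithmic mass of the conjugates below the level `(N + 1) ^ (-A)`. -/
noncomputable def ms (χ : AddChar Λ ℂ) (A : ℕ) : ℝ :=
  ∑ j ∈ Cop (orderOf χ), (Real.log (max (S.ρ (χ ^ j)) (((orderOf χ : ℝ) + 1) ^ A)⁻¹) -
    Real.log (S.ρ (χ ^ j)))

end Sys

/-- the value of a Laurent polynomial. -/
noncomputable def evN {Λ ι F : Type} [AddCommGroup Λ] [Field F] (I : Finset ι) (c : ι → F)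
    (m : ι → Λ) (x : AddChar Λ F) : F := ∑ i ∈ I, c i * x (m i)

/-- one Laurent polynomial as a system. -/
@[reducible] def poly {Λ ι : Type} (I : Finset ι) (c : ι → ℂ) (m : ι → Λ) : Sys Λ :=
  ⟨ι, Unit, I, c, m, fun _ => ()⟩

/-- the restriction to a translate of a one-dimensional subgroup. -/
noncomputable def FP {Λ ι F : Type} [AddCommGroup Λ] [Field F] (I : Finset ι) (c : ι → F)
    (m : ι → Λ) (η : AddChar Λ F) (v : Λ →ₗ[ℤ] ℤ) (A : ℤ) : F[X] :=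
  ∑ i ∈ I, C (c i * η (m i)) * X ^ (A + v (m i)).toNat

/-! ### lattices -/

/-- finitely many saturated sublattices give all the partitions. -/
def SSat : Prop :=
  ∀ (Λ ι : Type) [AddCommGroup Λ] [Module.Free ℤ Λ] [Module.Finite ℤ Λ] (I : Finset ι) (m : ι → Λ),
    (∃ 𝒲 : Finset (Submodule ℤ Λ), (∀ W ∈ 𝒲, Sat W) ∧ ∀ V : Submodule ℤ Λ, Sat V →
      ∃ W ∈ 𝒲, W ≤ V ∧ ∀ i ∈ I, ∀ k ∈ I, m i - m k ∈ V → m i - m k ∈ W) ∧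
    ∀ W : Submodule ℤ Λ, Sat W → Module.Free ℤ (Λ ⧸ W) ∧
      finrank ℤ W + finrank ℤ (Λ ⧸ W) = finrank ℤ Λ ∧
      (∀ l, l ∉ W → ∃ u : Λ →ₗ[ℤ] ℤ, u l ≠ 0 ∧ ∀ w ∈ W, u w = 0) ∧
      (W ≠ ⊤ → finrank ℤ W < finrank ℤ Λ)

/-- a torsion character as powers of one primitive root. -/
def SRepC : Prop :=
  ∀ (Λ : Type) [AddCommGroup Λ] (χ : AddChar Λ ℂ) (n : ℕ) (b : Basis (Fin n) ℤ Λ),
    0 < orderOf χ → ∃ (ξ : ℂ) (e : Λ →ₗ[ℤ] ℤ), IsPrimitiveRoot ξ (orderOf χ) ∧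
      (∀ l, χ l = ξ ^ e l) ∧ Gen (orderOf χ) fun i => e (b i)

/-- a free variable is added. -/
def SExt : Prop :=
  ∀ (Λ : Type) [AddCommGroup Λ] [Module.Free ℤ Λ] [Module.Finite ℤ Λ] (S : Sys Λ)
    (W : Submodule ℤ Λ), Sat W → (S.ref W.mkQ).Good → (S.res W).Good

/-! ### counting -/

/-- few points are very near the zero set and far from the cosets in it. -/
def SAbs : Prop :=
  ∀ (Λ : Type) [AddCommGroup Λ] [Module.Free ℤ Λ] [Module.Finite ℤ Λ] (S : Sys Λ) (ε : ℝ) (A' : ℕ),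
    0 < ε → ∃ A C : ℕ, ∀ (c : S.ι → ℂ) (N : ℕ) (X : Finset (AddChar Λ ℂ)), (∀ i ∈ S.I, ‖c i‖ ≤ 1) →
      0 < N → (∀ χ ∈ X, χ ^ N = 1 ∧ (S.wc c).ρ χ * ((N : ℝ) + 1) ^ A ≤ 1 ∧
        ∀ u : Λ →ₗ[ℤ] ℤ, u ≠ 0 → 1 ≤ ((S.wc c).ref u).ρ χ * ((N : ℝ) + 1) ^ A') →
      (X.card : ℝ) ≤ C * (N : ℝ) ^ ε

/-- the relative form. -/
def SRel : Prop :=
  ∀ (Λ : Type) [AddCommGroup Λ] [Module.Free ℤ Λ] [Module.Finite ℤ Λ] (S : Sys Λ) (ε : ℝ),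
    0 < ε → ∃ A C : ℕ, ∀ (c : S.ι → ℂ) (N : ℕ) (X : Finset (AddChar Λ ℂ)), 0 < N →
      (∀ χ ∈ X, χ ^ N = 1 ∧ ∀ u : Λ →ₗ[ℤ] ℤ, u ≠ 0 →
        (S.wc c).ρ χ * ((N : ℝ) + 1) ^ A < ((S.wc c).ref u).ρ χ) →
      (X.card : ℝ) ≤ C * (N : ℝ) ^ ε

/-! ### very small values -/

/-- pigeonhole in any dimension. -/
def SPigN : Prop :=
  ∀ n : ℕ, ∃ (γ : ℝ) (N₀ : ℕ), 0 < γ ∧ ∀ N : ℕ, N₀ ≤ N → ∀ e : Fin n → ℤ, Gen N e →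
    (∃ (κ : ℤ) (r : Fin n → ℤ), r ≠ 0 ∧ (∀ i, (N : ℤ) ∣ r i - κ * e i) ∧
      ∀ i, (|r i| : ℝ) ≤ (N : ℝ) ^ (1 / 15 : ℝ)) ∨
    ∃ (κ₁ κ₂ : ℤ) (r₁ r₂ : Fin n → ℤ), (∀ i, (N : ℤ) ∣ r₁ i - κ₁ * e i) ∧
      (∀ i, (N : ℤ) ∣ r₂ i - κ₂ * e i) ∧ (∃ i j, r₁ i * r₂ j ≠ r₁ j * r₂ i) ∧
      ∀ i, (|r₁ i| : ℝ) ≤ (N : ℝ) ^ (1 - γ) ∧ (|r₂ i| : ℝ) ≤ (N : ℝ) ^ (1 - γ)

/-- representation on a two-dimensional subgroup adapted to the second vector. -/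
def SRep2N : Prop :=
  ∀ (n N : ℕ) (e r₁ r₂ : Fin n → ℤ) (κ₁ κ₂ : ℤ), 0 < N → (∀ i, (N : ℤ) ∣ r₁ i - κ₁ * e i) →
    (∀ i, (N : ℤ) ∣ r₂ i - κ₂ * e i) → (∃ i j, r₁ i * r₂ j ≠ r₁ j * r₂ i) →
    ∃ (v w k : Fin n → ℤ) (g : ℕ) (a₁ a₂ b β₁ β₂ : ℤ), 0 < g ∧ g ∣ N ∧
      (∀ m s t : ℤ, (∀ i, m ∣ s * v i + t * w i) → m ∣ s ∧ m ∣ t) ∧
      (∀ i, r₁ i = g * (a₁ * v i + a₂ * w i) ∧ r₂ i = g * b * v i) ∧
      (∀ i, e i = β₁ * v i + β₂ * w i + (N / g : ℕ) * k i) ∧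
      ((N / g : ℕ) : ℤ) ∣ b * β₂ ∧ (N : ℤ) ∣ g * a₂ * b

/-- a sum of monomials in a root of unity and one variable. -/
noncomputable def fn {ι : Type} (I : Finset ι) (c k a : ι → ℤ) (ω X : ℂ) : ℂ :=
  ∑ i ∈ I, (c i : ℂ) * ω ^ k i * X ^ a i

/-- a small value gives a root nearby. -/
def SNearN : Prop :=
  ∀ (ι : Type) (I : Finset ι) (c : ι → ℤ), ∃ C : ℕ, ∀ (k a : ι → ℤ) (g : ℕ) (ω X₀ : ℂ) (s : ℝ),
    0 < g → IsPrimitiveRoot ω g → ‖X₀‖ = 1 → (g : ℝ) ≤ s →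
    (∀ i ∈ I, (g : ℝ) * (|a i| + 1) ≤ s) → fn I c k a ω X₀ ≠ 0 →
    ‖fn I c k a ω X₀‖ ≤ Real.exp (-(C * s)) →
    ∃ α : ℂ, α ≠ 0 ∧ ‖α - X₀‖ ≤ Real.exp (-s) ∧ fn I c k a ω α = 0

/-- the root is a root of a second sum with a small value. -/
def STwoN : Prop :=
  ∀ (ι ι' : Type) (I : Finset ι) (I' : Finset ι') (c : ι → ℤ) (c' : ι' → ℤ), ∃ C : ℕ,
    ∀ (k a : ι → ℤ) (k' a' : ι' → ℤ) (g : ℕ) (ω X₀ α : ℂ) (U : ℝ), 0 < g → IsPrimitiveRoot ω g →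
    ‖X₀‖ = 1 → (g : ℝ) ≤ U → (∀ i ∈ I, (g : ℝ) * (|a i| + 1) ≤ U) →
    (∀ i ∈ I', (g : ℝ) * (|a' i| + 1) ≤ U) → fn I c k a ω X₀ ≠ 0 → α ≠ 0 → fn I c k a ω α = 0 →
    ‖α - X₀‖ ≤ Real.exp (-(C * U)) → ‖fn I' c' k' a' ω X₀‖ ≤ Real.exp (-(C * U)) →
    fn I' c' k' a' ω α = 0

/-- no very small value on a subgroup of small degree. -/
def SOneN : Prop :=
  ∀ (ι : Type) (I : Finset ι) (c : ι → ℤ) (C₁ : ℕ), ∃ M₀ : ℕ, ∀ M : ℕ, M₀ ≤ M →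
    ∀ (k a : ι → ℤ) (g : ℕ) (ω X₀ : ℂ), 0 < g → IsPrimitiveRoot ω g → X₀ ^ M = 1 →
    (g : ℝ) ≤ C₁ * (M : ℝ) ^ (1 / 15 : ℝ) →
    (∀ i ∈ I, (g : ℝ) * (|a i| + 1) ≤ C₁ * (M : ℝ) ^ (1 / 15 : ℝ)) → fn I c k a ω X₀ ≠ 0 →
    Real.exp (-(M : ℝ) ^ (97 / 100 : ℝ)) < ‖fn I c k a ω X₀‖

/-- the algebraic closure of the field of rational functions. -/
abbrev FF : Type := AlgebraicClosure (RatFunc ℂ)

/-- the variable. -/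
noncomputable def tt : FF := algebraMap (RatFunc ℂ) FF RatFunc.X

/-- the derivation of `FF`. -/
def SFF : Prop :=
  Transcendental ℂ tt ∧ ∃ D : Derivation ℂ FF FF, D tt = 1 ∧
    (∀ f, D f = 0 → f ∈ Set.range (algebraMap ℂ FF)) ∧
    ∀ (δ : Derivation ℂ FF FF) (f : FF), δ f = δ tt * D f

open Classical in
/-- a common zero is far from a torsion translate of a subgroup, or lies on a common curve. -/
def SSylN : Prop :=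
  ∀ (ι J : Type) (I : Finset ι) (c e α β : ι → ℤ) (κ : ι → J) (ζ p q : ℂ) (g d m W : ℕ)
    (H l ρ : ℝ) (a : ℤ), 0 < g → ζ ^ g = 1 → 1 ≤ d →
    (∀ i ∈ I, |α i| ≤ d ∧ |β i - l * α i| ≤ ρ) → ∑ i ∈ I, |(c i : ℝ)| ≤ H → 1 ≤ H → 0 ≤ ρ →
    10 * d * ρ ≤ W → p ≠ 0 → q ≠ 0 →
    (∃ (j : J) (p₀ q₀ : ℂ), p₀ ≠ 0 ∧ q₀ ≠ 0 ∧
      ∑ i ∈ I with κ i = j, (c i : ℂ) * ζ ^ e i * p₀ ^ α i * q₀ ^ β i ≠ 0) →
    (∀ j, ∑ i ∈ I with κ i = j, (c i : ℂ) * ζ ^ e i * p ^ α i * q ^ β i = 0) → q ^ m ≠ ζ ^ a →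
    1 ≤ ‖q ^ m - ζ ^ a‖ * (2 ^ W * H ^ (5 * d * m)) ^ g ∨
    ∃ P : FF, P ≠ 0 ∧
      (∀ j, ∑ i ∈ I with κ i = j,
        algebraMap ℂ FF ((c i : ℂ) * ζ ^ e i) * P ^ α i * tt ^ β i = 0) ∧
      ∀ Φ : ℂ[X][X], (Φ.map (aeval tt).toRingHom).eval P = 0 → Φ.evalEval q p = 0

/-- a curve in the zero set on a two-dimensional torsion coset, not a coset itself. -/
structure AnD {Λ : Type} [AddCommGroup Λ] (S : Sys Λ) where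
  η : AddChar Λ ℂ
  (v w : Λ →ₗ[ℤ] ℤ)
  p : FF
  x : AddChar Λ FF
  tor : IsOfFinOrder η
  ne : p ≠ 0
  ind : ∀ a b : ℤ, (a ≠ 0 ∨ b ≠ 0) → p ^ a * tt ^ b ∉ Set.range (algebraMap ℂ FF)
  det : ∃ l l', v l * w l' ≠ v l' * w l
  eq : ∀ l, x l = algebraMap ℂ FF (η l) * p ^ v l * tt ^ w l
  zero : S.Zero x

/-- a very small value is near a coset or on an anomalous coset. -/
def SAnomN : Prop :=
  ∀ (Λ : Type) [AddCommGroup Λ] [Module.Free ℤ Λ] [Module.Finite ℤ Λ] (S : Sys Λ), S.Int →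
    ∃ γ : ℝ, 0 < γ ∧ ∀ δ : ℝ, 0 < δ → δ ≤ γ → ∃ M₀ : ℕ, ∀ χ : AddChar Λ ℂ, M₀ ≤ orderOf χ →
      S.ρ χ ≠ 0 → S.ρ χ ≤ Real.exp (-(orderOf χ : ℝ) ^ (1 - δ / 2)) →
      (∃ u : Λ →ₗ[ℤ] ℤ, u ≠ 0 ∧ (S.ref u).ρ χ ≤ Real.exp (-(orderOf χ : ℝ) ^ (1 - δ))) ∨
      ∃ D : AnD S, ∀ l, D.v l = 0 → D.w l = 0 → χ l = D.η l

/-- Ax's theorem for a two-dimensional space of logarithmic derivatives. -/
def SAx : Prop :=
  ∀ (C F Λ : Type) [Field C] [CharZero C] [Field F] [Algebra C F] [AddCommGroup Λ]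
    [Module.Free ℤ Λ] [Module.Finite ℤ Λ] (D : Derivation C F F) (x : AddChar Λ F)
    (v w : Λ →+ C) (a b : F) (L : Submodule ℤ Λ),
    (∀ f, D f = 0 → f ∈ Set.range (algebraMap C F)) →
    (∀ s t : C, s • a + t • b = 0 → s = 0 ∧ t = 0) →
    (∀ l, D (x l) = x l * (v l • a + w l • b)) → (∃ l l', v l * w l' ≠ v l' * w l) →
    (∀ l, l ∈ L ↔ v l = 0 ∧ w l = 0) →
    ∃ (t : ℕ) (l : Fin t → Λ), finrank ℤ Λ ≤ t + finrank ℤ L + 1 ∧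
      AlgebraicIndependent C fun k => x (l k)

/-- a vanishing sum of roots of unity with complex coefficients is degenerate. -/
def SMann : Prop :=
  ∀ (ι : Type) (I : Finset ι) (c : ι → ℂ), (∃ i ∈ I, c i ≠ 0) → ∃ B : ℕ, ∀ w : ι → ℂ,
    (∀ i ∈ I, Tor (w i)) → ∑ i ∈ I, c i * w i = 0 →
    ∃ i ∈ I, ∃ k ∈ I, i ≠ k ∧ ∃ s : ℕ, 0 < s ∧ s ≤ B ∧ w i ^ s = w k ^ s

/-- a torsion zero of a nonzero system satisfies a bounded relation. -/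
def SNz : Prop :=
  ∀ (Λ : Type) [AddCommGroup Λ] [Module.Free ℤ Λ] [Module.Finite ℤ Λ] (S : Sys Λ),
    (∀ (F : Type) [Field F] [Algebra ℂ F] (x : AddChar Λ F), S.Zero x → ¬ TD x (finrank ℤ Λ)) →
    ∃ T : Finset Λ, ∀ χ : AddChar Λ ℂ, IsOfFinOrder χ → NoRel T χ → S.ρ χ ≠ 0

/-- the limit of a sequence of anomalous curves. -/
def SStr : Prop :=
  ∀ (Λ : Type) [AddCommGroup Λ] [Module.Free ℤ Λ] [Module.Finite ℤ Λ] (S : Sys Λ) (D : ℕ → AnD S),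
    ∃ (F : Type) (_ : Field F) (_ : Algebra ℂ F) (x : AddChar Λ F) (L : Submodule ℤ Λ) (t : ℕ),
      S.Zero x ∧ TD x t ∧ finrank ℤ Λ ≤ t + finrank ℤ L + 1 ∧ (∀ l ∈ L, IsAlgebraic ℂ (x l)) ∧
      ∀ T : Finset Λ, (∀ l ∈ T, l ∈ L) → ∃ s : ℕ, 0 < s ∧ ∀ n₀, ∃ n, n₀ ≤ n ∧
        ∀ l ∈ T, (D n).v l = 0 ∧ (D n).w l = 0 ∧ (D n).η l ^ s = 1

/-- in codimension two there is no very small value. -/
def SExcl : Prop :=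
  ∀ (Λ : Type) [AddCommGroup Λ] [Module.Free ℤ Λ] [Module.Finite ℤ Λ] (S : Sys Λ), S.Int → S.Good →
    ∃ (δ : ℝ) (T : Finset Λ), 0 < δ ∧ ∀ χ : AddChar Λ ℂ, IsOfFinOrder χ → NoRel T χ →
      Real.exp (-(orderOf χ : ℝ) ^ (1 - δ)) ≤ S.ρ χ

/-- the lattice of relations of a large zero of the pair has full rank. -/
def SPairT : Prop :=
  ∀ (Λ : Type) [AddCommGroup Λ] [Module.Free ℤ Λ] [Module.Finite ℤ Λ] (S : Sys Λ), S.Full →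
    ∀ (F : Type) [Field F] [Algebra ℂ F] (x : AddChar (Λ × Λ) F) (L : Submodule ℤ (Λ × Λ)) (t : ℕ),
      S.pair.Zero x → TD x t → 2 * finrank ℤ Λ ≤ t + finrank ℤ L + 1 →
      (∀ l ∈ L, IsAlgebraic ℂ (x l)) → (∀ l ∈ L, l.1 = 0 ∨ l.2 = 0 → l = 0) →
      finrank ℤ Λ ≤ finrank ℤ L

/-- two very small values are related by a bounded monomial map. -/
def SPairN : Prop :=
  ∀ (Λ : Type) [AddCommGroup Λ] [Module.Free ℤ Λ] [Module.Finite ℤ Λ] (S : Sys Λ), S.Int → S.Full →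
    0 < finrank ℤ Λ → ∃ (δ : ℝ) (T : Finset Λ) (Φ : Finset (ℕ × (Λ →ₗ[ℤ] Λ))), 0 < δ ∧
      (∀ φ ∈ Φ, 0 < φ.1) ∧ ∀ (χ χ' : AddChar Λ ℂ) (M : ℕ), 0 < M → χ ^ M = 1 → χ' ^ M = 1 →
        NoRel T χ → NoRel T χ' → S.ρ χ ≤ Real.exp (-(M : ℝ) ^ (1 - δ)) →
        S.ρ χ' ≤ Real.exp (-(M : ℝ) ^ (1 - δ)) → ∃ φ ∈ Φ, ∀ l, χ' l ^ φ.1 = χ (φ.2 l)

/-! ### the deficit -/

/-- an irreducible polynomial of full rank. -/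
def SIrr : Prop :=
  ∀ (r : ℕ) (Q : MvPolynomial (Fin r) ℂ), Irreducible Q →
    (∀ u : (Fin r → ℤ) →ₗ[ℤ] ℤ, u ≠ 0 → ∃ μ ∈ Q.support, ∃ ν ∈ Q.support,
      u (fun i => μ i) ≠ u (fun i => ν i)) →
    (poly Q.support (fun μ => Q.coeff μ) fun (μ : Fin r →₀ ℕ) (i : Fin r) => (μ i : ℤ)).Full

/-- the norm of a Laurent polynomial. -/
def SNormN : Prop :=
  ∀ (Λ ι K : Type) [AddCommGroup Λ] [Module.Free ℤ Λ] [Module.Finite ℤ Λ] [Field K] [NumberField K]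
    (ι₀ : K →+* ℂ) (I : Finset ι) (c : ι → K) (m : ι → Λ), (∀ i ∈ I, IsIntegral ℤ (c i)) →
    (poly I (fun i => ι₀ (c i)) m).Full →
    ∃ (I' : Finset Λ) (z : Λ → ℤ), (∀ μ ∈ I', z μ ≠ 0) ∧ (poly I' (fun μ => (z μ : ℂ)) id).Full ∧
      ∀ χ : AddChar Λ ℂ, evN I' (fun μ => (z μ : ℂ)) id χ =
        ∏ τ : K →+* ℂ, evN I (fun i => τ (c i)) m χ

/-- a zero is moved by a Frobenius power, or satisfies two independent relations. -/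
def SChain : Prop :=
  ∀ (Λ : Type) [AddCommGroup Λ] [Module.Free ℤ Λ] [Module.Finite ℤ Λ] (I : Finset Λ) (z : Λ → ℂ),
    2 ≤ finrank ℤ Λ → (poly I z id).Full → ∀ H : ℕ,
    ∃ (Ll : Finset (ℕ × ℕ)) (Pp : Finset (Λ × Λ)), (∀ a ∈ Ll, a.2.Prime ∧ H ≤ a.2) ∧
      (∀ l ∈ Pp, ∀ s t : ℤ, s • l.1 + t • l.2 = 0 → s = 0 ∧ t = 0) ∧
      ∀ x : AddChar Λ ℂ, evN I z id x = 0 →
        (∃ a ∈ Ll, evN I z id (x ^ a.1) = 0 ∧ evN I z id (x ^ (a.1 * a.2)) ≠ 0) ∨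
        ∃ l ∈ Pp, x l.1 = 1 ∧ x l.2 = 1

/-- roots with a small nonzero integral value have a large height. -/
def SFrob2 : Prop :=
  ∀ (L κ : Type) [Field L] [NumberField L] (σ₀ : L →+* ℂ) (f : L[X]) (V W : κ → L[X]) (D : ℕ)
    (θ : ℝ) (s : Multiset ℂ), f ≠ 0 → IntC f → (∀ k, IntC (W k) ∧ (W k).natDegree ≤ D) →
    0 < θ → θ ≤ 1 →
    (∀ k (σ : L →+* ℂ) (α : ℂ), ((V k).map σ).IsRoot α →
      ‖((W k).map σ).eval α‖ ≤ θ * max 1 ‖α‖ ^ D) →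
    s ≤ (f.map σ₀).roots →
    (∀ α ∈ s, ∃ k, ((V k).map σ₀).IsRoot α ∧ ((W k).map σ₀).eval α ≠ 0) →
    s.card * finrank ℚ L * Real.log (1 / θ) ≤ D * ∑ σ : L →+* ℂ, (f.map σ).logMahlerMeasure

/-- the Mahler measures of the one-parameter restrictions are bounded below on average. -/
def SPosN : Prop :=
  ∀ (Λ ι K : Type) [AddCommGroup Λ] [Module.Free ℤ Λ] [Module.Finite ℤ Λ] [Field K] [NumberField K]
    (ι₀ : K →+* ℂ) (I : Finset ι) (c : ι → K) (m : ι → Λ) (I' : Finset Λ) (z : Λ → ℤ),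
    2 ≤ finrank ℤ Λ → (∀ i ∈ I, IsIntegral ℤ (c i) ∧ c i ≠ 0) → Set.InjOn m I →
    (∀ u : Λ →ₗ[ℤ] ℤ, u ≠ 0 → ∃ i ∈ I, ∃ k ∈ I, u (m i) ≠ u (m k)) →
    (poly I' (fun μ => (z μ : ℂ)) id).Full →
    (∀ χ : AddChar Λ ℂ, evN I (fun i => ι₀ (c i)) m χ = 0 → evN I' (fun μ => (z μ : ℂ)) id χ = 0) →
    ∃ (m₀ : ℝ) (T : Finset Λ), 0 < m₀ ∧
      ∀ (L : Type) [Field L] [NumberField L] [Algebra K L] (σ₀ : L →+* ℂ) (η : AddChar Λ L)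
        (v : Λ →ₗ[ℤ] ℤ) (A : ℤ), (∀ a, σ₀ (algebraMap K L a) = ι₀ a) → IsOfFinOrder η → v ≠ 0 →
        (∀ i ∈ I, 0 ≤ A + v (m i)) →
        (∃ l ∈ T, l ≠ 0 ∧ v l = 0 ∧ η l = 1) ∨
        (FP I (fun i => algebraMap K L (c i)) m η v A ≠ 0 ∧ m₀ * finrank ℚ L ≤ ∑ σ : L →+* ℂ,
          ((FP I (fun i => algebraMap K L (c i)) m η v A).map σ).logMahlerMeasure)

/-- the truncated logarithmic sum over a union of classes. -/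
def SDefN : Prop :=
  ∀ (Λ ι : Type) [AddCommGroup Λ] (I : Finset ι) (c : ι → ℂ) (m : ι → Λ) (f A : ℕ) (γ ε : ℝ),
    0 < f → 0 < γ → 0 < ε → ∃ N₀ : ℕ, ∀ N : ℕ, N₀ ≤ N →
    ∀ (χ η : AddChar Λ ℂ) (X₀ : ℂ) (v : Λ →ₗ[ℤ] ℤ) (g a : ℕ) (A₀ : ℤ) (Γ : Finset ℕ),
      IsPrimitiveRoot X₀ N → 0 < g → g ∣ N → η ^ g = 1 → (∀ l, χ l = η l * X₀ ^ v l) →
      (∀ i ∈ I, 0 ≤ A₀ + v (m i) ∧ A₀ + v (m i) ≤ a) → (g * a : ℝ) ≤ (N : ℝ) ^ (1 - γ) →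
      Γ ⊆ Cop N → (∀ j ∈ Γ, ∀ j' ∈ Cop N, j ≡ j' [MOD Nat.gcd f N] → j' ∈ Γ) →
      (∀ j ∈ Γ, FP I c m (η ^ j) v A₀ ≠ 0) →
      ∑ j ∈ Γ, (FP I c m (η ^ j) v A₀).logMahlerMeasure - ε * N.totient ≤
        ∑ j ∈ Γ, Real.log (max ‖evN I c m (χ ^ j)‖ (((N : ℝ) + 1) ^ A)⁻¹)

/-- the mass is small unless one conjugate value is very small. -/
def SMass : Prop :=
  ∀ (Λ : Type) [AddCommGroup Λ] [Module.Free ℤ Λ] [Module.Finite ℤ Λ] (S : Sys Λ), S.Int →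
    (∀ u : Λ →ₗ[ℤ] ℤ, u ≠ 0 → (S.ref u).Good) → ∀ ε ε' : ℝ, 0 < ε → 0 < ε' →
    ∃ (A : ℕ) (T : Finset Λ), ∀ χ : AddChar Λ ℂ, IsOfFinOrder χ → NoRel T χ →
      (∀ j ∈ Cop (orderOf χ), S.ρ (χ ^ j) ≠ 0) →
      S.ms χ A ≤ ε * (orderOf χ).totient ∨
      ∃ j ∈ Cop (orderOf χ), S.ρ (χ ^ j) ≤ Real.exp (-(orderOf χ : ℝ) ^ (1 - ε'))

/-- Gauss's lemma for the factors of an integral Laurent polynomial. -/
def SPrimN : Prop :=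
  ∀ (d : ℕ) (Q S : AddMonoidAlgebra ℂ (Fin d → ℤ)), Q * S ≠ 0 →
    (∀ μ, IsIntegral ℤ ((Q * S).coeff μ)) → ∃ c : ℂ, c ≠ 0 ∧
      (∀ μ, IsIntegral ℤ (c * Q.coeff μ)) ∧ ∀ μ, IsIntegral ℤ (c⁻¹ * S.coeff μ)

end Pool.Agent.MP_c1891a_nt.G43
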