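import Pool.Agent.MP_c1891a_nt.G43.Bas

/-
All dimensions: the reduction to an irreducible factor.
-/

namespace Pool.Agent.MP_c1891a_nt.G43

open Finset Module H43

/-- Laurent polynomials in `d` variables over the complex numbers. -/
abbrev LN (d : ℕ) : Type := AddMonoidAlgebra ℂ (Fin d → ℤ)

/-- the value of a Laurent polynomial at a character. -/
noncomputable def evL {d : ℕ} (P : LN d) (χ : AddChar (Fin d → ℤ) ℂ) : ℂ :=
  evN P.coeff.support P.coeff id χ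

/-- the zero set is not contained in finitely many proper algebraic subgroups. -/
def BigN {d : ℕ} (P : LN d) : Prop :=
  ∀ T : Finset (Fin d → ℤ), ∃ χ : AddChar (Fin d → ℤ) ℂ, evL P χ = 0 ∧ NoRel T χ

/-- evaluation is multiplicative and faithful, and a factor with a large zero set exists. -/
def SFacN : Prop :=
  ∀ d : ℕ, (∀ χ : AddChar (Fin d → ℤ) ℂ, ∃ φ : LN d →ₐ[ℂ] ℂ, (∀ P, φ P = evL P χ) ∧
      ∀ μ c, φ (AddMonoidAlgebra.single μ c) = c * χ μ) ∧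
    (∀ P : LN d, (∀ χ, evL P χ = 0) → P = 0) ∧
    ∀ P : LN d, P ≠ 0 → BigN P → ∃ Q : LN d, Irreducible Q ∧ Q ∣ P ∧ BigN Q

/-- an irreducible Laurent polynomial read on a lattice in which it has full rank. -/
def SIrrL : Prop :=
  ∀ (d : ℕ) (Q : LN d) (Λ : Submodule ℤ (Fin d → ℤ)) (m : (Fin d → ℤ) → Λ) (μ₀ : Fin d → ℤ),
    Irreducible Q → (∀ μ ∈ Q.coeff.support, (m μ).1 = μ - μ₀) →
    (∀ u : Λ →ₗ[ℤ] ℤ, u ≠ 0 → ∃ μ ∈ Q.coeff.support, ∃ ν ∈ Q.coeff.support, u (m μ) ≠ u (m ν)) →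
    (poly Q.coeff.support Q.coeff m).Full

/-- rank one: a binomial. -/
def SRk1 : Prop :=
  ∀ (d : ℕ) (Q : LN d) (Λ : Submodule ℤ (Fin d → ℤ)), Irreducible Q → BigN Q → finrank ℤ Λ ≤ 1 →
    (∀ μ ∈ Q.coeff.support, ∀ ν ∈ Q.coeff.support, μ - ν ∈ Λ) →
    ∃ μ ν, μ ≠ ν ∧ Q.coeff.support = {μ, ν} ∧ ¬ Tor (-Q.coeff ν / Q.coeff μ)

/-- a multiple with integral coefficients that generate the unit ideal (Gauss's lemma). -/
def SPrimN2 : Prop :=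
  ∀ (d : ℕ) (P : LN d), (∀ μ, IsAlgebraic ℚ (P.coeff μ)) → P ≠ 0 → ∃ c : ℂ, c ≠ 0 ∧
    (∀ μ, IsIntegral ℤ (c * P.coeff μ)) ∧
    ∀ S : LN d, (∀ μ, IsIntegral ℤ ((P * S).coeff μ)) → ∀ μ, IsIntegral ℤ (c⁻¹ * S.coeff μ)

end Pool.Agent.MP_c1891a_nt.G43
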