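import Pool.Agent.MP_c1891a_nt.G43.Spec2

/-
All dimensions: the last steps.
-/

namespace Pool.Agent.MP_c1891a_nt.G43

open Finset Module H43

/-- the points with the property `U` in a window of orders have conjugates linked by finitely many
monomial maps. -/
def Link {Λ : Type} [AddCommGroup Λ] (U : AddChar Λ ℂ → Prop) : Prop :=
  ∃ (a : ℕ) (T : Finset Λ) (Φ : Finset (ℕ × (Λ →ₗ[ℤ] Λ))) (J : AddChar Λ ℂ → ℕ),
    (∀ φ ∈ Φ, 0 < φ.1) ∧ (∀ χ, (J χ).Coprime (orderOf χ)) ∧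
    ∀ (χ χ' : AddChar Λ ℂ) (M : ℕ), 0 < M → χ ^ M = 1 → χ' ^ M = 1 →
      M ^ a ≤ orderOf χ ^ (a + 1) → M ^ a ≤ orderOf χ' ^ (a + 1) → U χ → U χ' →
      NoRel T χ → NoRel T χ' → ∃ φ ∈ Φ, ∀ l, (χ' ^ J χ') l ^ φ.1 = (χ ^ J χ) (φ.2 l)

/-- boundedly many orbits in a window of orders. -/
def Orb {Λ : Type} [AddCommGroup Λ] (U : AddChar Λ ℂ → Prop) : Prop :=
  ∃ (a C : ℕ) (T : Finset Λ), ∀ M : ℕ, 0 < M → ∃ S : Finset (AddChar Λ ℂ), S.card ≤ C ∧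
    ∀ χ : AddChar Λ ℂ, χ ^ M = 1 → M ^ a ≤ orderOf χ ^ (a + 1) → U χ → NoRel T χ →
      ∃ j : ℕ, j.Coprime (orderOf χ) ∧ χ ^ j ∈ S

/-- a thin set of orders. -/
def Thin {Λ : Type} [AddCommGroup Λ] (U : AddChar Λ ℂ → Prop) : Prop :=
  ∃ (T : Finset Λ) (C : ℝ) (E : Set ℕ),
    (∀ X : ℕ, ((E ∩ Set.Icc 1 X).ncard : ℝ) * Real.log X ≤ C * X) ∧
    ∀ χ : AddChar Λ ℂ, IsOfFinOrder χ → U χ → NoRel T χ → orderOf χ ∈ E

/-- not all translates by the characters of order dividing `n` have the property. -/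
def NotAll {Λ : Type} [AddCommGroup Λ] (U : AddChar Λ ℂ → Prop) : Prop :=
  ∃ n₀ : ℕ, ∀ n : ℕ, n₀ ≤ n → ∃ T : Finset Λ, ∀ χ : AddChar Λ ℂ, IsOfFinOrder χ →
    NoRel T (χ ^ n) → ∃ η : AddChar Λ ℂ, η ^ n = 1 ∧ ¬ U (η * χ)

/-- the analytic core: unit values of a polynomial of full rank are linked. -/
def SCore : Prop :=
  ∀ (Λ ι : Type) [AddCommGroup Λ] [Module.Free ℤ Λ] [Module.Finite ℤ Λ] (I : Finset ι)
    (c : ι → ℂ) (m : ι → Λ), 2 ≤ finrank ℤ Λ → (∀ i ∈ I, IsIntegral ℤ (c i) ∧ c i ≠ 0) →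
    Set.InjOn m I → (∀ u : Λ →ₗ[ℤ] ℤ, u ≠ 0 → ∃ i ∈ I, ∃ k ∈ I, u (m i) ≠ u (m k)) →
    (poly I c m).Full → Link fun χ => H79.IsU (evN I c m χ)

/-- the three consequences of a link. -/
def SLink : Prop :=
  ∀ (Λ : Type) [AddCommGroup Λ] [Module.Free ℤ Λ] [Module.Finite ℤ Λ] (U : AddChar Λ ℂ → Prop),
    Link U → Orb U ∧ Thin U ∧ (2 ≤ finrank ℤ Λ → NotAll U)

/-- the lattice spanned by the differences of the exponents. -/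
def dif {d : ℕ} (Q : LN d) : Submodule ℤ (Fin d → ℤ) :=
  Submodule.span ℤ {a | ∃ μ ∈ Q.coeff.support, ∃ ν ∈ Q.coeff.support, a = μ - ν}

/-- the reduction to an irreducible factor of largest rank. -/
def SRedN : Prop :=
  ∀ (d : ℕ) (P : LN d), (∀ μ, IsAlgebraic ℚ (P.coeff μ)) → BigN P →
    ∃ Λ : Submodule ℤ (Fin d → ℤ), Sat Λ ∧ min 2 d ≤ finrank ℤ Λ ∧
      (∀ Q : LN d, Irreducible Q → Q ∣ P → finrank ℤ (dif Q) ≤ finrank ℤ Λ) ∧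
      ((∃ T : Finset (Fin d → ℤ), ∀ χ : AddChar (Fin d → ℤ) ℂ, IsOfFinOrder χ →
        H79.IsU (evL P χ) → ¬ NoRel T χ) ∨
      (2 ≤ finrank ℤ Λ ∧ ∃ U : AddChar Λ ℂ → Prop, Link U ∧
        ∀ χ : AddChar (Fin d → ℤ) ℂ, IsOfFinOrder χ → H79.IsU (evL P χ) → U (rs Λ χ)))

/-- images under isogenies divisible by a large integer. -/
def SPushN : Prop :=
  ∀ (d : ℕ) (P : LN d), (∀ μ, IsAlgebraic ℚ (P.coeff μ)) → BigN P →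
    ∃ k₀ : ℕ, ∀ k : ℕ, k₀ ≤ k → ∀ A : (Fin d → ℤ) →ₗ[ℤ] (Fin d → ℤ), Function.Injective A →
      ∀ R S : LN d, (∀ μ, IsAlgebraic ℚ (R.coeff μ)) →
      (∀ χ : AddChar (Fin d → ℤ) ℂ,
        evL R ((χ ^ k).compAddMonoidHom A.toAddMonoidHom) = evL P χ * evL S χ) →
      ∃ T : Finset (Fin d → ℤ), ∀ χ : AddChar (Fin d → ℤ) ℂ, IsOfFinOrder χ →
        H79.IsU (evL R χ) → ¬ NoRel T χ

end Pool.Agent.MP_c1891a_nt.G43
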