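import Pool.Agent.MP_c1891a_nt.G43.Spec3

/-
All dimensions: counting points of bounded order.
-/

namespace Pool.Agent.MP_c1891a_nt.G43

open Finset Module H43

/-- the order is at most `N`. -/
def Ht {Λ : Type} [AddCommGroup Λ] (χ : AddChar Λ ℂ) (N : ℕ) : Prop :=
  ∃ q : ℕ, 0 < q ∧ q ≤ N ∧ χ ^ q = 1

/-- few points of bounded order are very near the zero set and far from the cosets in it. -/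
def HAbs : Prop :=
  ∀ (Λ : Type) [AddCommGroup Λ] [Module.Free ℤ Λ] [Module.Finite ℤ Λ] (S : Sys Λ) (ε : ℝ) (A' : ℕ),
    0 < ε → ∃ A C : ℕ, ∀ (c : S.ι → ℂ) (N : ℕ) (X : Finset (AddChar Λ ℂ)), (∀ i ∈ S.I, ‖c i‖ ≤ 1) →
      0 < N → (∀ χ ∈ X, Ht χ N ∧ (S.wc c).ρ χ * ((N : ℝ) + 1) ^ A ≤ 1 ∧
        ∀ u : Λ →ₗ[ℤ] ℤ, u ≠ 0 → 1 ≤ ((S.wc c).ref u).ρ χ * ((N : ℝ) + 1) ^ A') →
      (X.card : ℝ) ≤ C * (N : ℝ) ^ ε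

/-- the relative form for one lattice. -/
def HRelAt (Λ : Type) [AddCommGroup Λ] : Prop :=
  ∀ (S : Sys Λ) (ε : ℝ),
    0 < ε → ∃ A C : ℕ, ∀ (c : S.ι → ℂ) (N : ℕ) (X : Finset (AddChar Λ ℂ)), 0 < N →
      (∀ χ ∈ X, Ht χ N ∧ ∀ u : Λ →ₗ[ℤ] ℤ, u ≠ 0 →
        (S.wc c).ρ χ * ((N : ℝ) + 1) ^ A < ((S.wc c).ref u).ρ χ) →
      (X.card : ℝ) ≤ C * (N : ℝ) ^ ε

/-- few orbits of bounded order have the property `U`. -/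
def Sparse (Λ : Type) [AddCommGroup Λ] (U : AddChar Λ ℂ → Prop) : Prop :=
  ∃ (T : Finset Λ) (S : Set (AddChar Λ ℂ)),
    (∀ ε : ℝ, 0 < ε → ∃ C : ℝ, ∀ (X : ℕ) (Y : Finset (AddChar Λ ℂ)),
      (∀ ψ ∈ Y, ψ ∈ S ∧ orderOf ψ ≤ X) → (Y.card : ℝ) ≤ C * (X : ℝ) ^ ε) ∧
    ∀ χ : AddChar Λ ℂ, IsOfFinOrder χ → U χ → NoRel T χ →
      ∃ j : ℕ, j.Coprime (orderOf χ) ∧ χ ^ j ∈ S

/-- unit values of a polynomial of full rank are sparse. -/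
def SCoreS : Prop :=
  ∀ (Λ ι : Type) [AddCommGroup Λ] [Module.Free ℤ Λ] [Module.Finite ℤ Λ] (I : Finset ι)
    (c : ι → ℂ) (m : ι → Λ), 2 ≤ finrank ℤ Λ → (∀ i ∈ I, IsIntegral ℤ (c i) ∧ c i ≠ 0) →
    Set.InjOn m I → (∀ u : Λ →ₗ[ℤ] ℤ, u ≠ 0 → ∃ i ∈ I, ∃ k ∈ I, u (m i) ≠ u (m k)) →
    (poly I c m).Full → Sparse Λ fun χ => H79.IsU (evN I c m χ)

end Pool.Agent.MP_c1891a_nt.G43
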